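import Mathlib

set_option autoImplicit false

/-! Hitting times of integer sequences with increments at most one. -/

namespace Run7.h287.ST

theorem first_hit (f : ℕ → ℤ) (i j : ℕ) (hij : i ≤ j)
    (hstep : ∀ k, i ≤ k → k < j → f (k + 1) ≤ f k + 1) (t : ℤ) (h1 : f i ≤ t) (h2 : t ≤ f j) :
    ∃ b, i ≤ b ∧ b ≤ j ∧ f b = t ∧ ∀ k, i ≤ k → k < b → f k < t := by
  classical
  have hex : ∃ b, i ≤ b ∧ b ≤ j ∧ t ≤ f b := ⟨j, hij, le_refl j, h2⟩
  obtain ⟨b, hb⟩ : ∃ b, b = Nat.find hex := ⟨_, rfl⟩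
  obtain ⟨b1, b2, b3⟩ : i ≤ b ∧ b ≤ j ∧ t ≤ f b := by
    rw [hb]; exact Nat.find_spec hex
  have hmin : ∀ k, i ≤ k → k < b → f k < t := by
    intro k hk hkb
    by_contra hc
    rw [hb] at hkb
    exact Nat.find_min hex hkb ⟨hk, by rw [← hb] at hkb; omega, not_lt.1 hc⟩
  refine ⟨b, b1, b2, ?_, hmin⟩
  rcases Nat.eq_or_lt_of_le b1 with h | h
  · have : f b ≤ t := by rw [← h]; exact h1
    omega
  · have h3 := hmin (b - 1) (by omega) (by omega)
    have h4 := hstep (b - 1) (by omega) (by omega)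
    rw [show b - 1 + 1 = b by omega] at h4
    omega

theorem last_hit (f : ℕ → ℤ) (i j : ℕ) (hij : i ≤ j)
    (hstep : ∀ k, i ≤ k → k < j → f (k + 1) ≤ f k + 1) (t : ℤ) (h1 : f i ≤ t) (h2 : t ≤ f j) :
    ∃ a, i ≤ a ∧ a ≤ j ∧ f a = t ∧ ∀ k, a < k → k ≤ j → t < f k := by
  classical
  obtain ⟨a, ha⟩ : ∃ a, a = Nat.findGreatest (fun a => i ≤ a ∧ f a ≤ t) j := ⟨_, rfl⟩
  have hs : i ≤ a ∧ f a ≤ t := by
    rw [ha]
    exact Nat.findGreatest_spec (P := fun a => i ≤ a ∧ f a ≤ t) hij ⟨le_refl i, h1⟩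
  have haj : a ≤ j := by
    rw [ha]; exact Nat.findGreatest_le j
  have hmax : ∀ k, a < k → k ≤ j → t < f k := by
    intro k hk hkj
    by_contra hc
    rw [ha] at hk
    exact Nat.findGreatest_is_greatest hk hkj ⟨by rw [ha] at hs; omega, not_lt.1 hc⟩
  refine ⟨a, hs.1, haj, ?_, hmax⟩
  rcases Nat.eq_or_lt_of_le haj with h | h
  · subst h
    exact le_antisymm hs.2 h2
  · have h3 := hmax (a + 1) (by omega) (by omega)
    have h4 := hstep a hs.1 h
    omega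

/-- a crossing piece between two even levels -/
theorem crossing (f : ℕ → ℤ) (i j : ℕ) (hij : i ≤ j)
    (hstep : ∀ k, i ≤ k → k < j → f (k + 1) ≤ f k + 1) (H : ℤ) (hH : 1 ≤ H)
    (h : f i + H + 1 ≤ f j) :
    ∃ a b, i ≤ a ∧ a < b ∧ b ≤ j ∧ Even (f a) ∧ f b = f a + H ∧
      (∀ k, a < k → k ≤ b → f a + 1 ≤ f k) ∧ ∀ k, a ≤ k → k ≤ b → f k ≤ f a + H := by
  obtain ⟨e, he, he1, he2⟩ : ∃ e : ℤ, Even e ∧ f i ≤ e ∧ e ≤ f i + 1 := by
    rcases Int.even_or_odd (f i) with h | h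
    · exact ⟨f i, h, le_refl _, by omega⟩
    · exact ⟨f i + 1, h.add_one, by omega, le_refl _⟩
  obtain ⟨b, b1, b2, b3, b4⟩ := first_hit f i j hij hstep (e + H) (by omega) (by omega)
  obtain ⟨a, a1, a2, a3, a4⟩ := last_hit f i b b1 (fun k h1 h2 => hstep k h1 (by omega)) e he1
    (by omega)
  have hab : a < b := by
    rcases Nat.eq_or_lt_of_le a2 with h | h
    · subst h; omega
    · exact h
  refine ⟨a, b, a1, hab, b2, by rw [a3]; exact he, by rw [a3, b3], ?_, ?_⟩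
  · intro k hk1 hk2
    have := a4 k hk1 hk2
    omega
  · intro k hk1 hk2
    rcases Nat.eq_or_lt_of_le hk2 with h | h
    · subst h; omega
    · have := b4 k (by omega) h
      omega

end Run7.h287.ST
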