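import Pool.Agent.Y981.QB.Uni
import Pool.Agent.Run7.h287.ST.Hit

set_option autoImplicit false

/-! Honeycomb lattice: points near a line, and blocks. -/

namespace Run7.h287.ST

open H978R2.Hex
open Pool.Agent.Y981.QB (lev gt IsSW dst Sector BOK Mid)

/-- `|q - p|` times the distance of `r` from the line through `p` and `q` -/
noncomputable def Off (p q r : V) : ℝ :=
  |(pos r - pos p).re * (pos q - pos p).im - (pos r - pos p).im * (pos q - pos p).re|

theorem Off_nonneg (p q r : V) : 0 ≤ Off p q r := abs_nonneg _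

theorem dst_sq (u v : V) : dst u v ^ 2 =
    ((pos u).re - (pos v).re) ^ 2 + ((pos u).im - (pos v).im) ^ 2 := by
  unfold dst
  rw [← Complex.normSq_eq_norm_sq, Complex.normSq_apply, Complex.sub_re, Complex.sub_im]
  ring

theorem Off_sq (p q r : V) : Off p q r ^ 2 = dst p r ^ 2 * dst p q ^ 2 -
    ((dst p r ^ 2 + dst p q ^ 2 - dst q r ^ 2) / 2) ^ 2 := by
  unfold Off
  rw [sq_abs, dst_sq, dst_sq, dst_sq]
  simp only [Complex.sub_re, Complex.sub_im]
  ring

theorem Off_map {T : V → V} (hT : ∀ u v, dst (T u) (T v) = dst u v) (p q r : V) :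
    Off (T p) (T q) (T r) = Off p q r := by
  have h : Off (T p) (T q) (T r) ^ 2 = Off p q r ^ 2 := by
    rw [Off_sq, Off_sq, hT, hT, hT]
  exact (sq_eq_sq₀ (Off_nonneg _ _ _) (Off_nonneg _ _ _)).1 h

/-- the geometry: a line in the sector -/
theorem geo {p q : V} (h : Sector (pos q - pos p)) (hpq : 0 < dst p q) :
    ∃ κ : ℝ, 0 ≤ κ ∧ κ ≤ 1 / 4 ∧ dst p q ≤ ((lev q - lev p : ℤ) : ℝ) + 1 ∧
      ∀ r : V, |((r.2 - p.2 : ℤ) : ℝ) + κ * ((lev r - lev p : ℤ) : ℝ)| ≤
        Off p q r / dst p q + 1 := by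
  obtain ⟨X, hX⟩ : ∃ X, X = (pos q - pos p).re := ⟨_, rfl⟩
  obtain ⟨Y, hY⟩ : ∃ Y, Y = -(pos q - pos p).im := ⟨_, rfl⟩
  obtain ⟨t, ht⟩ : ∃ t, t = Real.sqrt 3 := ⟨_, rfl⟩
  have ht2 : t ^ 2 = 3 := by rw [ht]; exact Real.sq_sqrt (by norm_num)
  have ht0 : 0 < t := by rw [ht]; positivity
  have htt : t * t = 3 := by rw [← pow_two]; exact ht2
  obtain ⟨h1, h2⟩ := h
  rw [← hX, ← ht] at h2
  have hY0 : 0 ≤ Y := by rw [hY]; linarith
  have hYX : t * Y ≤ X := by rw [hY]; exact h2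
  have hX0 : 0 ≤ X := le_trans (by positivity) hYX
  have hD2 : dst p q ^ 2 = X ^ 2 + Y ^ 2 := by
    rw [dst_sq, hX, hY, Complex.sub_re, Complex.sub_im]
    ring
  obtain ⟨S, hS⟩ : ∃ S, S = t * X + Y := ⟨_, rfl⟩
  have hS0 : 0 ≤ S := by rw [hS]; positivity
  have hXY : 3 * Y ^ 2 ≤ X ^ 2 := by
    have h3 : (t * Y) ^ 2 ≤ X ^ 2 := pow_le_pow_left₀ (by positivity) hYX 2
    rwa [mul_pow, ht2] at h3
  have hSD : 2 / t * dst p q ≤ S := by
    have h3 : (2 / t * dst p q) ^ 2 ≤ S ^ 2 := by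
      rw [mul_pow, hD2, div_pow, ht2, hS]
      have h4 : (t * X + Y) ^ 2 = 3 * X ^ 2 + 2 * (t * X * Y) + Y ^ 2 := by
        calc (t * X + Y) ^ 2 = t ^ 2 * X ^ 2 + 2 * (t * X * Y) + Y ^ 2 := by ring
          _ = _ := by rw [ht2]
      rw [h4]
      have h5 : 0 ≤ t * X * Y := by positivity
      nlinarith
    exact (abs_le_of_sq_le_sq' h3 hS0).2
  have hSpos : 0 < S := lt_of_lt_of_le (by positivity) hSD
  refine ⟨Y / S, by positivity, ?_, ?_, ?_⟩
  · rw [div_le_iff₀ hSpos, hS]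
    nlinarith
  · -- the level of `q`
    have e1 : ((lev q - lev p : ℤ) : ℝ) = 2 / t * X + 2 / 3 * Y -
        (((q.1 + q.2) % 2 : ℤ) - ((p.1 + p.2) % 2 : ℤ)) / 3 := by
      rw [hX, hY, Complex.sub_re, Complex.sub_im]
      unfold pos H978R2.Hex.ht lev
      rw [← ht]
      push_cast
      field_simp
      ring
    have e2 : (((q.1 + q.2) % 2 : ℤ) : ℝ) ≤ 1 := by
      have : (q.1 + q.2) % 2 ≤ 1 := by omega
      exact_mod_cast this
    have e3 : (0 : ℝ) ≤ (((p.1 + p.2) % 2 : ℤ) : ℝ) := by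
      have : 0 ≤ (p.1 + p.2) % 2 := by omega
      exact_mod_cast this
    have h3 : dst p q ≤ 2 / t * X := by
      have h4 : dst p q ^ 2 ≤ (2 / t * X) ^ 2 := by
        rw [mul_pow, hD2, div_pow, ht2]
        nlinarith
      exact (abs_le_of_sq_le_sq' h4 (by positivity)).2
    rw [e1]
    have h5 : 0 ≤ 2 / 3 * Y := by positivity
    push_cast
    linarith
  · intro r
    obtain ⟨A, hA⟩ : ∃ A, A = (pos r - pos p).re := ⟨_, rfl⟩
    obtain ⟨B, hB⟩ : ∃ B, B = (pos r - pos p).im := ⟨_, rfl⟩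
    obtain ⟨d, hd⟩ : ∃ d : ℝ, d = (((r.1 + r.2) % 2 : ℤ) : ℝ) - (((p.1 + p.2) % 2 : ℤ) : ℝ) :=
      ⟨_, rfl⟩
    have hd1 : |d| ≤ 1 := by
      have a1 : (0 : ℝ) ≤ (((r.1 + r.2) % 2 : ℤ) : ℝ) := by
        have : 0 ≤ (r.1 + r.2) % 2 := by omega
        exact_mod_cast this
      have a2 : (((r.1 + r.2) % 2 : ℤ) : ℝ) ≤ 1 := by
        have : (r.1 + r.2) % 2 ≤ 1 := by omega
        exact_mod_cast this
      have a3 : (0 : ℝ) ≤ (((p.1 + p.2) % 2 : ℤ) : ℝ) := by
        have : 0 ≤ (p.1 + p.2) % 2 := by omega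
        exact_mod_cast this
      have a4 : (((p.1 + p.2) % 2 : ℤ) : ℝ) ≤ 1 := by
        have : (p.1 + p.2) % 2 ≤ 1 := by omega
        exact_mod_cast this
      rw [hd, abs_le]
      constructor <;> linarith
    have e1 : ((lev r - lev p : ℤ) : ℝ) = 2 / t * A - (2 * B + d) / 3 := by
      rw [hA, hB, hd, Complex.sub_re, Complex.sub_im]
      unfold pos H978R2.Hex.ht lev
      rw [← ht]
      push_cast
      field_simp
      ring
    have e2 : ((r.2 - p.2 : ℤ) : ℝ) = (2 * B + d) / 3 := by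
      rw [hB, hd, Complex.sub_im]
      unfold pos H978R2.Hex.ht
      push_cast
      ring
    have e3 : Off p q r = |X * B + Y * A| := by
      unfold Off
      rw [← hA, ← hB, ← hX]
      have : (pos q - pos p).im = -Y := by rw [hY]; ring
      rw [this, ← abs_neg]
      congr 1
      ring
    have e4 : (2 * B + d) / 3 + Y / S * (2 / t * A - (2 * B + d) / 3) =
        2 / t * (X * B + Y * A) / S + (t * X) / S * (d / 3) := by
      have hS' : S ≠ 0 := hSpos.ne'
      have h3 : S = t * X + Y := hS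
      field_simp
      rw [h3]
      have : t ^ 2 = 3 := ht2
      linear_combination (2 * B * X) * this
    rw [e1, e2, e4]
    have h3 : |2 / t * (X * B + Y * A) / S| ≤ Off p q r / dst p q := by
      rw [abs_div, abs_mul, abs_of_pos hSpos, abs_of_pos (show (0 : ℝ) < 2 / t by positivity),
        ← e3, div_le_div_iff₀ hSpos hpq]
      calc 2 / t * Off p q r * dst p q = Off p q r * (2 / t * dst p q) := by ring
        _ ≤ Off p q r * S := mul_le_mul_of_nonneg_left hSD (Off_nonneg _ _ _)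
    have h4 : |t * X / S * (d / 3)| ≤ 1 := by
      rw [abs_mul, abs_of_nonneg (show (0 : ℝ) ≤ t * X / S by positivity), abs_div,
        abs_of_pos (show (0 : ℝ) < 3 by norm_num)]
      have h5 : t * X / S ≤ 1 := by
        rw [div_le_one hSpos, hS]
        linarith
      have h6 : |d| / 3 ≤ 1 := by linarith
      exact mul_le_one₀ h5 (by positivity) h6
    exact (abs_add_le _ _).trans (add_le_add h3 h4)

/-- the blocks along a line: levels `e + 2 + (2 g + 2) i + 1, …` -/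
noncomputable def blks (e g : ℤ) (yy : ℤ → ℤ) : ℕ → List (ℤ × ℤ)
  | 0 => []
  | N + 1 => (e + 2, yy (e + 2)) :: blks (e + (2 * g + 2)) g yy N

theorem blks_length (g : ℤ) (yy : ℤ → ℤ) : ∀ (N : ℕ) (e : ℤ), (blks e g yy N).length = N := by
  intro N
  induction N with
  | zero => intro e; rfl
  | succ N ih =>
    intro e
    show (blks (e + (2 * g + 2)) g yy N).length + 1 = N + 1
    rw [ih]

theorem blks_bok (g : ℤ) (yy : ℤ → ℤ) : ∀ (N : ℕ) (e A H : ℤ), Even e → A ≤ e →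
    H = e + 2 + (2 * g + 2) * N → BOK g A (blks e g yy N) H := by
  intro N
  induction N with
  | zero =>
    intro e A H he hA hH
    refine ⟨by push_cast at hH; omega, ?_⟩
    rw [hH]
    push_cast
    rw [mul_zero, add_zero]
    exact he.add even_two
  | succ N ih =>
    intro e A H he hA hH
    refine ⟨by show A + 2 ≤ e + 2; omega, he.add even_two, ?_⟩
    refine ih (e + (2 * g + 2)) (e + 2 + 2 * g) H ?_ (by omega) ?_
    · refine he.add ?_
      exact (even_two_mul g).add even_two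
    · rw [hH]
      push_cast
      ring

theorem mem_blks (g : ℤ) (yy : ℤ → ℤ) : ∀ (N : ℕ) (e : ℤ) (c : ℤ × ℤ), c ∈ blks e g yy N →
    c.2 = yy c.1 := by
  intro N
  induction N with
  | zero => intro e c hc; simp [blks] at hc
  | succ N ih =>
    intro e c hc
    change c ∈ (e + 2, yy (e + 2)) :: blks (e + (2 * g + 2)) g yy N at hc
    rw [List.mem_cons] at hc
    rcases hc with rfl | hc
    · rfl
    · exact ih _ c hc

/-- a crossing piece, with a strict upper bound -/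
theorem crossing2 (f : ℕ → ℤ) (i j : ℕ) (hij : i ≤ j)
    (hstep : ∀ k, i ≤ k → k < j → f (k + 1) ≤ f k + 1) (e t : ℤ) (het : e < t)
    (he : f i ≤ e) (ht : t ≤ f j) :
    ∃ a b, i ≤ a ∧ a < b ∧ b ≤ j ∧ f a = e ∧ f b = t ∧
      (∀ k, a < k → k ≤ b → e + 1 ≤ f k) ∧ ∀ k, a ≤ k → k < b → f k < t := by
  obtain ⟨b, b1, b2, b3, b4⟩ := first_hit f i j hij hstep t (by omega) ht
  obtain ⟨a, a1, a2, a3, a4⟩ := last_hit f i b b1 (fun k h1 h2 => hstep k h1 (by omega)) e he
    (by omega)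
  have hab : a < b := by
    rcases Nat.eq_or_lt_of_le a2 with h | h
    · subst h; omega
    · exact h
  exact ⟨a, b, a1, hab, b2, a3, b3, fun k hk1 hk2 => by have := a4 k hk1 hk2; omega,
    fun k hk1 hk2 => b4 k (by omega) hk2⟩

end Run7.h287.ST
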