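import Pool.Agent.Run7.h287.ST.WinV
import Pool.Agent.Run7.h287.ST.Geo

set_option autoImplicit false

/-! Honeycomb lattice: blocks along a channel of variable width. -/

namespace Run7.h287.ST

open H978R2.Hex
open Pool.Agent.Y981.QB (lev Sector)

/-- the coordinate along the axis -/
noncomputable def cx (e : ℂ) (p v : V) : ℝ :=
  (pos v - pos p).re * e.re + (pos v - pos p).im * e.im

/-- the coordinate across the axis -/
noncomputable def cy (e : ℂ) (p v : V) : ℝ :=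
  (pos v - pos p).im * e.re - (pos v - pos p).re * e.im

theorem par_abs (p r : V) : |((((r.1 + r.2) % 2 - (p.1 + p.2) % 2 : ℤ)) : ℝ)| ≤ 1 := by
  have h : |(r.1 + r.2) % 2 - (p.1 + p.2) % 2| ≤ 1 := by
    rw [abs_le]
    omega
  exact_mod_cast h

/-- the geometry: an axis in the sector -/
theorem geoE {e : ℂ} (he : e.re ^ 2 + e.im ^ 2 = 1) (hs : Sector e) :
    ∃ lam κ : ℝ, 1 ≤ lam ∧ lam ≤ 4 / 3 ∧ 0 ≤ κ ∧ κ ≤ 1 / 4 ∧ ∀ p r : V,
      |((lev r - lev p : ℤ) : ℝ) - lam * cx e p r| ≤ 2 / 3 * |cy e p r| + 1 / 3 ∧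
      |((r.2 - p.2 : ℤ) : ℝ) + κ * ((lev r - lev p : ℤ) : ℝ)| ≤ |cy e p r| + 1 := by
  obtain ⟨c, hc⟩ : ∃ c, c = e.re := ⟨_, rfl⟩
  obtain ⟨s, hs'⟩ : ∃ s, s = -e.im := ⟨_, rfl⟩
  obtain ⟨t, hte⟩ : ∃ t, t = Real.sqrt 3 := ⟨_, rfl⟩
  have htt : t * t = 3 := by rw [hte]; exact Real.mul_self_sqrt (by norm_num)
  have ht0 : 0 < t := by rw [hte]; positivity
  obtain ⟨h1, h2⟩ := hs
  rw [← hte, ← hs', ← hc] at h2
  have hs0 : 0 ≤ s := by rw [hs']; linarith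
  have him : e.im = -s := by rw [hs']; ring
  have hcs : c ^ 2 + s ^ 2 = 1 := by rw [hc, hs', neg_sq]; exact he
  have hc0 : 0 ≤ c := le_trans (by positivity) h2
  have hc1 : c ≤ 1 := by nlinarith
  have hs4 : s ^ 2 ≤ 1 / 4 := by
    have h3 : (t * s) ^ 2 ≤ c ^ 2 := pow_le_pow_left₀ (by positivity) h2 2
    have h4 : (t * s) ^ 2 = 3 * s ^ 2 := by rw [mul_pow, pow_two t, htt]
    rw [h4] at h3
    linarith
  obtain ⟨S, hS⟩ : ∃ S, S = t * c + s := ⟨_, rfl⟩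
  have hS2 : S ^ 2 = 3 * c ^ 2 + 2 * (t * c * s) + s ^ 2 := by
    rw [hS]
    calc (t * c + s) ^ 2 = (t * t) * c ^ 2 + 2 * (t * c * s) + s ^ 2 := by ring
      _ = _ := by rw [htt]
  have hS0 : 0 ≤ S := by rw [hS]; positivity
  have hSl : 3 / 2 ≤ S := by
    have h3 : 0 ≤ t * c * s := by positivity
    nlinarith
  have hSu : S ≤ 2 := by
    have h3 : 2 * (t * c * s) ≤ c ^ 2 + 3 * s ^ 2 := by
      have h4 : 0 ≤ (c - t * s) ^ 2 := sq_nonneg _
      have h5 : (c - t * s) ^ 2 = c ^ 2 - 2 * (t * c * s) + (t * t) * s ^ 2 := by ring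
      rw [h5, htt] at h4
      linarith
    nlinarith
  obtain ⟨κ, hκ⟩ : ∃ κ, κ = s / S := ⟨_, rfl⟩
  have hSp : 0 < S := by linarith
  have hκS : κ * S = s := by rw [hκ]; field_simp
  have hκ0 : 0 ≤ κ := by rw [hκ]; positivity
  have hκ4 : κ ≤ 1 / 4 := by
    rw [hκ, div_le_iff₀ hSp, hS]
    have h3 : t * (t * s) ≤ t * c := mul_le_mul_of_nonneg_left h2 ht0.le
    have h4 : t * (t * s) = 3 * s := by rw [← mul_assoc, htt]
    rw [h4] at h3
    linarith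
  refine ⟨2 / 3 * S, κ, by linarith, by linarith, hκ0, hκ4, fun p r => ?_⟩
  obtain ⟨P, hP⟩ : ∃ P : ℝ, P = ((((r.1 + r.2) % 2 - (p.1 + p.2) % 2 : ℤ)) : ℝ) := ⟨_, rfl⟩
  have hP1 : |P| ≤ 1 := by rw [hP]; exact par_abs p r
  obtain ⟨x, hx⟩ : ∃ x, x = cx e p r := ⟨_, rfl⟩
  obtain ⟨y, hy⟩ : ∃ y, y = cy e p r := ⟨_, rfl⟩
  obtain ⟨X, hX⟩ : ∃ X, X = (pos r - pos p).re := ⟨_, rfl⟩
  obtain ⟨Y, hY⟩ : ∃ Y, Y = (pos r - pos p).im := ⟨_, rfl⟩
  have ex : x = X * c - Y * s := by rw [hx, hX, hY, hc]; unfold cx; rw [him]; ring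
  have ey : y = Y * c + X * s := by rw [hy, hX, hY, hc]; unfold cy; rw [him]; ring
  have eX : X = x * c + y * s := by
    rw [ex, ey]
    linear_combination (-X) * hcs
  have eY : Y = y * c - x * s := by
    rw [ex, ey]
    linear_combination (-Y) * hcs
  have d1 : ((r.1 - p.1 : ℤ) : ℝ) = 2 / 3 * (t * X) := by
    have h3 : X = t / 2 * ((r.1 - p.1 : ℤ) : ℝ) := by
      rw [hX, hte]
      unfold pos
      simp only [Complex.sub_re]
      push_cast
      ring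
    rw [h3]
    calc ((r.1 - p.1 : ℤ) : ℝ) = 1 / 3 * 3 * ((r.1 - p.1 : ℤ) : ℝ) := by ring
      _ = 1 / 3 * (t * t) * ((r.1 - p.1 : ℤ) : ℝ) := by rw [htt]
      _ = _ := by ring
  have d2 : ((r.2 - p.2 : ℤ) : ℝ) = 2 / 3 * Y + P / 3 := by
    rw [hY, hP]
    unfold pos ht
    simp only [Complex.sub_im]
    push_cast
    ring
  have dl : ((lev r - lev p : ℤ) : ℝ) = 2 / 3 * (S * x - (c - t * s) * y) - P / 3 := by
    have h3 : ((lev r - lev p : ℤ) : ℝ) = ((r.1 - p.1 : ℤ) : ℝ) - ((r.2 - p.2 : ℤ) : ℝ) := by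
      unfold lev
      push_cast
      ring
    rw [h3, d1, d2, eX, eY, hS]
    ring
  have hcts : 0 ≤ c - t * s := by linarith
  have hcts1 : c - t * s ≤ 1 := by nlinarith [mul_nonneg ht0.le hs0]
  have hPa := abs_le.1 hP1
  rw [← hx, ← hy]
  constructor
  · rw [dl]
    have e1 : 2 / 3 * (S * x - (c - t * s) * y) - P / 3 - 2 / 3 * S * x =
        -(2 / 3 * ((c - t * s) * y) + P / 3) := by ring
    rw [e1, abs_neg]
    calc |2 / 3 * ((c - t * s) * y) + P / 3| ≤ |2 / 3 * ((c - t * s) * y)| + |P / 3| :=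
          abs_add_le _ _
      _ = 2 / 3 * ((c - t * s) * |y|) + |P| / 3 := by
          rw [abs_mul, abs_mul, abs_of_nonneg hcts, abs_of_pos (by norm_num : (0 : ℝ) < 2 / 3),
            abs_div P 3, abs_of_pos (by norm_num : (0 : ℝ) < 3)]
      _ ≤ 2 / 3 * (1 * |y|) + 1 / 3 := by gcongr
      _ = _ := by ring
  · rw [dl, d2, eY]
    have e1 : 2 / 3 * (y * c - x * s) + P / 3 + κ * (2 / 3 * (S * x - (c - t * s) * y) - P / 3) =
        2 / 3 * ((c - κ * (c - t * s)) * y) + (1 - κ) * P / 3 := by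
      linear_combination (2 / 3 * x) * hκS
    rw [e1]
    have h5 : 0 ≤ c - κ * (c - t * s) := by
      have h6 : κ * (c - t * s) ≤ 1 / 4 * c := by
        have h7 : c - t * s ≤ c := by nlinarith [mul_nonneg ht0.le hs0]
        calc κ * (c - t * s) ≤ κ * c := mul_le_mul_of_nonneg_left h7 hκ0
          _ ≤ 1 / 4 * c := mul_le_mul_of_nonneg_right hκ4 hc0
      linarith
    have h5' : c - κ * (c - t * s) ≤ 1 := by nlinarith [mul_nonneg hκ0 hcts]
    calc |2 / 3 * ((c - κ * (c - t * s)) * y) + (1 - κ) * P / 3| ≤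
        |2 / 3 * ((c - κ * (c - t * s)) * y)| + |(1 - κ) * P / 3| := abs_add_le _ _
      _ = 2 / 3 * ((c - κ * (c - t * s)) * |y|) + (1 - κ) * |P| / 3 := by
          rw [abs_mul, abs_mul, abs_of_nonneg h5, abs_of_pos (by norm_num : (0 : ℝ) < 2 / 3),
            abs_div ((1 - κ) * P) 3, abs_mul (1 - κ) P, abs_of_pos (by norm_num : (0 : ℝ) < 3),
            abs_of_nonneg (by linarith : 0 ≤ 1 - κ)]
      _ ≤ 2 / 3 * (1 * |y|) + 1 * 1 / 3 := by
          gcongr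
          linarith
      _ ≤ |y| + 1 := by
          have := abs_nonneg y
          linarith

/-! ### the blocks -/

/-- the next level -/
def nx (G : ℤ → ℤ) (d : ℤ) : ℤ := d + 2 * G d + 2

/-- `n` blocks from the level `d` -/
def bls (G Y : ℤ → ℤ) : ℕ → ℤ → List (ℤ × ℤ × ℤ)
  | 0, _ => []
  | n + 1, d => (d, Y d, G d) :: bls G Y n (nx G d)

theorem bls_length (G Y : ℤ → ℤ) : ∀ (n : ℕ) (d : ℤ), (bls G Y n d).length = n
  | 0, _ => rfl
  | n + 1, d => by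
    unfold bls
    rw [List.length_cons, bls_length G Y n]

theorem le_nx {G : ℤ → ℤ} (hG : ∀ d, 1 ≤ G d) (n : ℕ) (d : ℤ) : d ≤ (nx G)^[n] d := by
  induction n generalizing d with
  | zero => exact le_rfl
  | succ n ih =>
    rw [Function.iterate_succ_apply]
    refine le_trans ?_ (ih _)
    unfold nx
    have := hG d
    omega

theorem bls_bv {G Y : ℤ → ℤ} (hG : ∀ d, 1 ≤ G d) : ∀ (n : ℕ) (d A H : ℤ), A + 2 ≤ d → Even d →
    Even H → (nx G)^[n] d ≤ H → BV A (bls G Y n d) H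
  | 0, d, A, H, h1, h2, h3, h4 => by
    unfold bls BV
    rw [Function.iterate_zero, id] at h4
    exact ⟨by omega, h3⟩
  | n + 1, d, A, H, h1, h2, h3, h4 => by
    unfold bls BV
    refine ⟨h1, h2, hG d, ?_⟩
    rw [Function.iterate_succ_apply] at h4
    refine bls_bv hG n (nx G d) _ H ?_ ?_ h3 h4
    · unfold nx
      exact le_rfl
    · unfold nx
      rw [Int.even_iff] at h2 ⊢
      omega

theorem mem_bls {G Y : ℤ → ℤ} (hG : ∀ d, 1 ≤ G d) : ∀ (n : ℕ) (d : ℤ) (c : ℤ × ℤ × ℤ),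
    c ∈ bls G Y n d → d ≤ c.1 ∧ c.2.1 = Y c.1 ∧ c.2.2 = G c.1
  | 0, d, c, h => by
    unfold bls at h
    simp at h
  | n + 1, d, c, h => by
    unfold bls at h
    rcases List.mem_cons.1 h with rfl | h
    · exact ⟨le_rfl, rfl, rfl⟩
    · obtain ⟨h1, h2⟩ := mem_bls hG n _ c h
      refine ⟨le_trans ?_ h1, h2⟩
      unfold nx
      have := hG d
      omega

end Run7.h287.ST
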