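import Pool.Agent.Run7.h287.ST.Ahl
import Pool.Agent.Y981.QB.OneCode

set_option autoImplicit false

/-! Honeycomb lattice: walks from the tip of a channel of variable width. -/

namespace Run7.h287.ST

open H978R2.Hex
open Pool.Agent.Y981.QB (lev Sector)

/-- the size of the block at level `d` -/
noncomputable def GG (f : ℝ → ℝ) (lam : ℝ) (a d : ℤ) : ℤ := ⌈16 * f (((d - a : ℤ) : ℝ) / lam)⌉

/-- the first row of the block at level `d` -/
noncomputable def YY (f : ℝ → ℝ) (lam κ : ℝ) (a b d : ℤ) : ℤ :=
  ⌊(b : ℝ) - κ * (((d - a : ℤ) : ℝ) + 2 * GG f lam a d) - (GG f lam a d / 4 - 1 / 2)⌋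

theorem GG_ge {f : ℝ → ℝ} (hf1 : ∀ x, 1 ≤ f x) (lam : ℝ) (a d : ℤ) :
    16 * f (((d - a : ℤ) : ℝ) / lam) ≤ GG f lam a d ∧
      (GG f lam a d : ℝ) < 16 * f (((d - a : ℤ) : ℝ) / lam) + 1 ∧ 16 ≤ GG f lam a d := by
  have h1 := Int.le_ceil (16 * f (((d - a : ℤ) : ℝ) / lam))
  have h2 := Int.ceil_lt_add_one (16 * f (((d - a : ℤ) : ℝ) / lam))
  refine ⟨h1, h2, ?_⟩
  have h3 := hf1 (((d - a : ℤ) : ℝ) / lam)
  have h4 : (16 : ℝ) ≤ (GG f lam a d : ℝ) := le_trans (by linarith) h1
  exact_mod_cast h4

/-- the vertices of the channel respect the blocks -/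
theorem block_row {e : ℂ} {lam κ : ℝ} (hlam : 1 ≤ lam) (hκ0 : 0 ≤ κ) (hκ4 : κ ≤ 1 / 4)
    (hgeo : ∀ p r : V,
      |((lev r - lev p : ℤ) : ℝ) - lam * cx e p r| ≤ 2 / 3 * |cy e p r| + 1 / 3 ∧
      |((r.2 - p.2 : ℤ) : ℝ) + κ * ((lev r - lev p : ℤ) : ℝ)| ≤ |cy e p r| + 1)
    {f : ℝ → ℝ} (hf1 : ∀ x, 1 ≤ f x) (hfL : ∀ x y, |f x - f y| ≤ |x - y| / 100)
    (p v : V) (hv : |cy e p v| ≤ f (cx e p v)) (d : ℤ) (h1 : d + 1 ≤ lev v)
    (h2 : lev v ≤ d + 2 * GG f lam (lev p) d) :
    YY f lam κ (lev p) p.2 d ≤ v.2 ∧
      v.2 ≤ YY f lam κ (lev p) p.2 d + GG f lam (lev p) d - 1 := by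
  obtain ⟨g1, g2, g3⟩ := GG_ge hf1 lam (lev p) d
  obtain ⟨a1, a2⟩ := hgeo p v
  obtain ⟨G, hG⟩ : ∃ G, G = GG f lam (lev p) d := ⟨_, rfl⟩
  obtain ⟨t, ht⟩ : ∃ t : ℝ, t = ((d - lev p : ℤ) : ℝ) := ⟨_, rfl⟩
  obtain ⟨z, hz⟩ : ∃ z : ℝ, z = (p.2 : ℝ) - κ * (t + 2 * G) - (G / 4 - 1 / 2) := ⟨_, rfl⟩
  have hY : YY f lam κ (lev p) p.2 d = ⌊z⌋ := by
    unfold YY
    rw [hz, ht, hG]
  rw [hY]
  rw [← hG] at g1 g2 g3 h2 ⊢
  rw [← ht] at g1 g2
  obtain ⟨Dl, hDl⟩ : ∃ D : ℝ, D = ((lev v - lev p : ℤ) : ℝ) := ⟨_, rfl⟩
  rw [← hDl] at a1 a2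
  have hg16 : (16 : ℝ) ≤ G := by exact_mod_cast g3
  have hD1 : t + 1 ≤ Dl := by
    rw [ht, hDl]
    have : d - lev p + 1 ≤ lev v - lev p := by omega
    exact_mod_cast this
  have hD2 : Dl ≤ t + 2 * G := by
    rw [ht, hDl]
    have : lev v - lev p ≤ d - lev p + 2 * G := by omega
    exact_mod_cast this
  obtain ⟨x, hx⟩ : ∃ x, x = cx e p v := ⟨_, rfl⟩
  obtain ⟨y, hy⟩ : ∃ y, y = |cy e p v| := ⟨_, rfl⟩
  rw [← hx, ← hy] at a1
  rw [← hy] at a2
  rw [← hx, ← hy] at hv
  have hy0 : 0 ≤ y := by rw [hy]; exact abs_nonneg _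
  have hlam0 : 0 < lam := by linarith
  have hxt : |x - t / lam| ≤ 2 * G + 2 / 3 * y + 1 / 3 := by
    have e1 : x - t / lam = (lam * x - t) / lam := by field_simp
    rw [e1, abs_div, abs_of_pos hlam0, div_le_iff₀ hlam0]
    have e2 : |lam * x - t| ≤ 2 * G + 2 / 3 * y + 1 / 3 := by
      rw [abs_le] at a1 ⊢
      constructor <;> linarith [a1.1, a1.2]
    refine e2.trans ?_
    have e3 : 0 ≤ 2 * (G : ℝ) + 2 / 3 * y + 1 / 3 := by positivity
    nlinarith
  have hfx : f x ≤ f (t / lam) + (2 * G + 2 / 3 * y + 1 / 3) / 100 := by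
    have h3 := hfL x (t / lam)
    have h4 := (abs_le.1 h3).2
    have h5 : |x - t / lam| / 100 ≤ (2 * G + 2 / 3 * y + 1 / 3) / 100 := by gcongr
    linarith
  have hM : y + 1 ≤ G / 4 - 1 / 2 := by linarith
  rw [abs_le] at a2
  obtain ⟨b1, b2⟩ := a2
  have hzl := Int.floor_le z
  have hzg := Int.lt_floor_add_one z
  push_cast at b1 b2
  constructor
  · have h3 : κ * Dl ≤ κ * (t + 2 * G) := mul_le_mul_of_nonneg_left hD2 hκ0
    have h4 : (⌊z⌋ : ℝ) ≤ v.2 := by linarith
    exact_mod_cast h4
  · have h3 : κ * t ≤ κ * Dl := mul_le_mul_of_nonneg_left (by linarith) hκ0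
    have h4 : κ * (2 * G) ≤ 1 / 4 * (2 * G) := mul_le_mul_of_nonneg_right hκ4 (by positivity)
    have h5 : κ * (t + 2 * G) = κ * t + κ * (2 * G) := by ring
    have h6 : (v.2 : ℝ) < ⌊z⌋ + G := by
      rw [h5] at hz
      linarith
    have h7 : v.2 < ⌊z⌋ + G := by exact_mod_cast h6
    omega

/-! ### cutting -/

/-- `l` starts at `p` and stops at its first vertex of level at least `L` -/
def Stop (p : V) (L : ℤ) (l : List V) : Prop :=
  l.head? = some p ∧ l.IsChain Adj ∧ l.Nodup ∧ (∀ v ∈ l.dropLast, lev v < L) ∧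
    ∀ v ∈ l.getLast?, L ≤ lev v

/-- the vertices of `l` respect the blocks `B` -/
def Resp (B : List (ℤ × ℤ × ℤ)) (v : V) : Prop :=
  ∀ p ∈ B, p.1 + 1 ≤ lev v → lev v ≤ p.1 + 2 * p.2.2 → p.2.1 ≤ v.2 ∧ v.2 ≤ p.2.1 + p.2.2 - 1

theorem Stop.decomp {p : V} {L : ℤ} {l : List V} (h : Stop p L l) (hp : lev p < L) :
    ∃ (m : List V) (w : V), l = p :: (m ++ [w]) ∧ lev w = L ∧ (∀ v ∈ p :: m, lev v < L) := by
  obtain ⟨h1, h2, h3, h4, h5⟩ := h
  match l, h1 with
  | [], h1 => simp at h1
  | [q], h1 =>
    simp only [List.head?_cons, Option.some.injEq] at h1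
    subst h1
    have := h5 q (by simp)
    omega
  | q :: q' :: t, h1 =>
    simp only [List.head?_cons, Option.some.injEq] at h1
    subst h1
    have hne : (q' :: t) ≠ [] := by simp
    refine ⟨(q' :: t).dropLast, (q' :: t).getLast hne, ?_, ?_, ?_⟩
    · rw [List.dropLast_append_getLast]
    · have hge : L ≤ lev ((q' :: t).getLast hne) := by
        apply h5
        rw [List.getLast?_cons_cons, List.getLast?_eq_some_getLast hne]
        rfl
      have hle : lev ((q' :: t).getLast hne) ≤ L := by
        have hlen : 2 ≤ (q :: q' :: t).length := by simp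
        obtain ⟨n, hn⟩ : ∃ n, (q :: q' :: t).length = n + 2 := ⟨_, (Nat.sub_add_cancel hlen).symm⟩
        have e1 : (q' :: t).getLast hne = (q :: q' :: t)[n + 1]'(by omega) := by
          rw [List.getLast_eq_getElem]
          simp only [List.length_cons] at hn
          simp only [List.length_cons, List.getElem_cons_succ]
          congr 1
          omega
        have e2 := (List.isChain_iff_getElem.1 h2) n (by omega)
        have e3 := Pool.Agent.Y981.QB.lev_adj e2
        have e4 : lev ((q :: q' :: t)[n]'(by omega)) < L := by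
          apply h4
          rw [List.mem_iff_getElem]
          refine ⟨n, ?_, ?_⟩
          · rw [List.length_dropLast]
            omega
          · rw [List.getElem_dropLast]
        rw [e1]
        rw [abs_le] at e3
        omega
      omega
    · intro v hv
      apply h4
      rw [List.dropLast_cons_of_ne_nil hne]
      exact hv

theorem bv_le : ∀ (B : List (ℤ × ℤ × ℤ)) (A H : ℤ), BV A B H → A + 2 ≤ H
  | [], A, H, h => by
    unfold BV at h
    exact h.1
  | p :: B, A, H, h => by
    unfold BV at h
    have := bv_le B _ H h.2.2.2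
    omega

theorem bv_top : ∀ (B : List (ℤ × ℤ × ℤ)) (A H : ℤ), BV A B H → ∀ p ∈ B,
    p.1 + 2 * p.2.2 + 2 ≤ H
  | [], _, _, _, p, hp => by simp at hp
  | q :: B, A, H, h, p, hp => by
    unfold BV at h
    rcases List.mem_cons.1 hp with rfl | hp
    · exact bv_le B _ H h.2.2.2
    · exact bv_top B _ H h.2.2.2 p hp

theorem one_le_mu : 1 ≤ mu0 := by
  unfold mu0
  rw [Real.one_le_sqrt]
  have := Real.sqrt_nonneg 2
  linarith

/-- even starting point -/
theorem even_start (u : V) (hu : Even (u.1 + u.2)) (B : List (ℤ × ℤ × ℤ)) (H L : ℤ)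
    (hB : BV (lev u) B H) (hL : L = H ∨ L = H + 1) (F : Finset (List V))
    (hF : ∀ l ∈ F, Stop u L l ∧ (∀ v ∈ l.tail, lev u + 1 ≤ lev v) ∧ ∀ v ∈ l, Resp B v) :
    ∑ l ∈ F, (mu0⁻¹) ^ (l.length - 1) ≤ mu0 * (Real.sqrt 2)⁻¹ ^ B.length := by
  classical
  have hmu1 := one_le_mu
  have hmu0 : 0 < mu0 := by linarith
  have huL : lev u < L := by
    have := bv_le B _ _ hB
    omega
  have h2 : (0 : ℝ) ≤ (Real.sqrt 2)⁻¹ ^ B.length := by positivity
  rcases hL with hL | hL
  · -- one more step
    obtain ⟨g, hg⟩ : ∃ g : List V → List V, g = fun l =>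
      l ++ [((l.getLastD (0, 0)).1 + 1, (l.getLastD (0, 0)).2)] := ⟨_, rfl⟩
    have hginj : Function.Injective g := by
      intro l l' h
      have := congrArg List.dropLast h
      rw [hg] at this
      simpa using this
    have hmv : ∀ l ∈ F.image g, MV u H B l := by
      intro l' hl'
      obtain ⟨l, hl, rfl⟩ := Finset.mem_image.1 hl'
      obtain ⟨hs, ht, hr⟩ := hF l hl
      obtain ⟨m, w, hlm, hw, hm⟩ := hs.decomp huL
      obtain ⟨s1, s2, s3, s4, s5⟩ := hs
      have hlast : l.getLastD (0, 0) = w := by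
        rw [hlm, ← List.cons_append, List.getLastD_concat]
      have hgl : g l = l ++ [(w.1 + 1, w.2)] := by
        rw [hg]
        simp only [hlast]
      have hadj : Adj w (w.1 + 1, w.2) := by
        left
        exact Prod.ext (by simp) (by simp)
      have hlw : lev (w.1 + 1, w.2) = H + 1 := by
        have : lev (w.1 + 1, w.2) = lev w + 1 := by
          unfold lev
          ring
        rw [this, hw, hL]
      have hle : ∀ v ∈ l, lev v ≤ H := by
        intro v hv
        rw [hlm, ← List.cons_append, List.mem_append] at hv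
        rcases hv with hv | hv
        · have := hm v hv
          omega
        · rw [List.mem_singleton] at hv
          rw [hv, hw, hL]
      rw [hgl]
      refine ⟨?_, ?_, ?_, ?_, ?_, ?_, ?_, ?_⟩
      · rw [hlm]
        rfl
      · rw [List.isChain_append]
        refine ⟨s2, List.isChain_singleton _, ?_⟩
        intro x hx y hy
        rw [List.head?_cons, Option.mem_def, Option.some.injEq] at hy
        rw [hlm, ← List.cons_append, List.getLast?_append] at hx
        simp only [List.getLast?_singleton, Option.some_or, Option.mem_def, Option.some.injEq] at hx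
        rw [← hx, ← hy]
        exact hadj
      · rw [List.nodup_append]
        refine ⟨s3, List.nodup_singleton _, ?_⟩
        intro x hx y hy hxy
        rw [List.mem_singleton] at hy
        have h3 := hle x hx
        rw [hxy, hy, hlw] at h3
        omega
      · rw [hlm]
        simp
      · intro v hv
        rw [hlm, List.cons_append, List.tail_cons] at hv
        rw [hlm, List.tail_cons] at ht
        rw [List.mem_append] at hv
        rcases hv with hv | hv
        · exact ht v hv
        · rw [List.mem_singleton] at hv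
          rw [hv, hlw]
          have := bv_le B _ _ hB
          omega
      · intro v hv
        rw [List.dropLast_concat] at hv
        exact hle v hv
      · intro v hv
        rw [List.getLast?_append] at hv
        simp only [List.getLast?_singleton, Option.some_or, Option.mem_def,
          Option.some.injEq] at hv
        rw [← hv, hlw]
      · intro p hp v hv h5 h6
        rw [List.mem_append] at hv
        rcases hv with hv | hv
        · exact hr v hv p hp h5 h6
        · rw [List.mem_singleton] at hv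
          have h7 := bv_top B _ _ hB p hp
          rw [hv, hlw] at h6
          omega
    have key := winV u H B (F.image g) hu hB hmv
    rw [Finset.sum_image (fun a _ b _ h => hginj h)] at key
    have e1 : ∀ l ∈ F, (mu0⁻¹) ^ (l.length - 1) = mu0 * (mu0⁻¹) ^ ((g l).length - 1) := by
      intro l hl
      have hlen : 1 ≤ l.length := by
        obtain ⟨hs, -⟩ := hF l hl
        obtain ⟨m, w, hlm, -⟩ := hs.decomp huL
        rw [hlm]
        simp
      obtain ⟨k, hk⟩ : ∃ k, l.length = k + 1 := ⟨_, (Nat.sub_add_cancel hlen).symm⟩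
      have hgl : (g l).length = k + 2 := by
        rw [hg]
        simp [hk]
      rw [hgl, hk, Nat.add_sub_cancel, show k + 2 - 1 = k + 1 from rfl, pow_succ]
      field_simp
    rw [Finset.sum_congr rfl e1, ← Finset.mul_sum]
    exact mul_le_mul_of_nonneg_left key hmu0.le
  · have key := winV u H B F hu hB (fun l hl => by
      obtain ⟨hs, ht, hr⟩ := hF l hl
      obtain ⟨m, w, hlm, hw, hm⟩ := hs.decomp huL
      obtain ⟨s1, s2, s3, s4, s5⟩ := hs
      refine ⟨s1, s2, s3, ?_, ht, ?_, ?_, fun p hp v hv => hr v hv p hp⟩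
      · rw [hlm]
        simp
      · intro v hv
        have := s4 v hv
        omega
      · intro v hv
        rw [hlm, ← List.cons_append, List.getLast?_append] at hv
        simp only [List.getLast?_singleton, Option.some_or, Option.mem_def,
          Option.some.injEq] at hv
        rw [← hv, hw, hL])
    refine key.trans ?_
    nlinarith

/-- **walks from the tip** -/
theorem tip_start (p : V) (L : ℤ) (B : List (ℤ × ℤ × ℤ)) (H : ℤ) (hL : L = H ∨ L = H + 1)
    (hB : BV (lev p + if Even (p.1 + p.2) then 0 else 1) B H) (F : Finset (List V))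
    (hF : ∀ l ∈ F, Stop p L l ∧ (∀ v ∈ l.tail, lev p + 1 ≤ lev v) ∧ ∀ v ∈ l, Resp B v) :
    ∑ l ∈ F, (mu0⁻¹) ^ (l.length - 1) ≤ 2 * mu0 * (Real.sqrt 2)⁻¹ ^ B.length := by
  classical
  have hmu1 := one_le_mu
  have hmu0 : 0 < mu0 := by linarith
  have h2 : (0 : ℝ) ≤ (Real.sqrt 2)⁻¹ ^ B.length := by positivity
  by_cases hp : Even (p.1 + p.2)
  · rw [if_pos hp, add_zero] at hB
    refine (even_start p hp B H L hB hL F hF).trans ?_
    nlinarith [mul_nonneg hmu0.le h2]
  · rw [if_neg hp] at hB
    have hpo : (p.1 + p.2) % 2 = 1 := by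
      rw [Int.even_iff] at hp
      omega
    have hHL : lev p + 1 + 2 ≤ H := bv_le B _ _ hB
    -- the second vertex
    obtain ⟨P, hP⟩ : ∃ P : Finset V, P = {(p.1 + 1, p.2), (p.1, p.2 - 1)} := ⟨_, rfl⟩
    have hPc : P.card ≤ 2 := by rw [hP]; exact Finset.card_le_two
    have hPe : ∀ u ∈ P, Even (u.1 + u.2) ∧ lev u = lev p + 1 := by
      intro u hu
      rw [hP, Finset.mem_insert, Finset.mem_singleton] at hu
      unfold lev
      rw [Int.even_iff]
      rcases hu with rfl | rfl <;> simp only <;> omega
    have hstruct : ∀ l ∈ F, ∃ u ∈ P, ∃ t : List V, l = p :: u :: t ∧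
        Stop u L (u :: t) ∧ (∀ v ∈ t, lev u + 1 ≤ lev v) := by
      intro l hl
      obtain ⟨hs, ht, hr⟩ := hF l hl
      obtain ⟨m, w, hlm, hw, hm⟩ := hs.decomp (by omega)
      obtain ⟨s1, s2, s3, s4, s5⟩ := hs
      obtain ⟨u, t, hut⟩ : ∃ u t, m ++ [w] = u :: t := by
        cases m with
        | nil => exact ⟨w, [], rfl⟩
        | cons a m => exact ⟨a, m ++ [w], rfl⟩
      rw [hut] at hlm
      subst hlm
      have hadj : Adj p u := (List.isChain_cons_cons.1 s2).1
      have hlu : lev p + 1 ≤ lev u := ht u (by simp)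
      have hu : u ∈ P := by
        rw [hP, Finset.mem_insert, Finset.mem_singleton]
        rcases hadj with h | h | ⟨h, h'⟩ | ⟨h, h'⟩
        · left
          have h3 := congrArg Prod.fst h
          have h4 := congrArg Prod.snd h
          simp only [Prod.fst_sub, Prod.snd_sub] at h3 h4
          exact Prod.ext (by simp only; omega) (by simp only; omega)
        · exfalso
          have h3 := congrArg Prod.fst h
          have h4 := congrArg Prod.snd h
          simp only [Prod.fst_sub, Prod.snd_sub] at h3 h4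
          unfold lev at hlu
          omega
        · exfalso
          exact hp h'
        · right
          have h3 := congrArg Prod.fst h
          have h4 := congrArg Prod.snd h
          simp only [Prod.fst_sub, Prod.snd_sub] at h3 h4
          exact Prod.ext (by simp only; omega) (by simp only; omega)
      refine ⟨u, hu, t, rfl, ⟨rfl, (List.isChain_cons_cons.1 s2).2, (List.nodup_cons.1 s3).2, ?_, ?_⟩,
        ?_⟩
      · intro v hv
        apply s4
        rw [List.dropLast_cons_of_ne_nil (by simp)]
        exact List.mem_cons_of_mem _ hv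
      · intro v hv
        apply s5
        rw [List.getLast?_cons_cons]
        exact hv
      · -- the other vertices of level `lev p + 1` are not visited
        intro v hv
        by_contra hcon
        have hvl := ht v (List.mem_cons_of_mem _ hv)
        have hvu := (hPe u hu).2
        have hve : lev v = lev p + 1 := by omega
        obtain ⟨i, hi, hiv⟩ := List.getElem_of_mem hv
        -- `v` is not the last vertex
        have hlast : i + 1 < t.length := by
          by_contra hc
          have hi' : i = t.length - 1 := by omega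
          have h6 : v ∈ (p :: u :: t).getLast? := by
            rw [List.getLast?_cons_cons, List.getLast?_eq_getElem?, Option.mem_def,
              List.getElem?_eq_some_iff]
            refine ⟨by simp, ?_⟩
            simp only [List.length_cons, Nat.add_sub_cancel]
            obtain ⟨k, hk⟩ : ∃ k, t.length = k + 1 := ⟨t.length - 1, by omega⟩
            have : (u :: t)[t.length]'(by simp) = t[i] := by
              have e : t.length = i + 1 := by omega
              simp only [e, List.getElem_cons_succ]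
            rw [this]
            exact hiv
          have := s5 v h6
          omega
        obtain ⟨a, ha⟩ : ∃ a, a = (u :: t)[i]'(by simp only [List.length_cons]; omega) := ⟨_, rfl⟩
        obtain ⟨b, hb⟩ : ∃ b, b = (u :: t)[i + 2]'(by simp only [List.length_cons]; omega) :=
          ⟨_, rfl⟩
        have hch := List.isChain_iff_getElem.1 (List.isChain_cons_cons.1 s2).2
        have hv' : (u :: t)[i + 1]'(by simp only [List.length_cons]; omega) = v := by
          simp only [List.getElem_cons_succ]
          exact hiv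
        have c1 := hch i (by simp only [List.length_cons]; omega)
        have c2 := hch (i + 1) (by simp only [List.length_cons]; omega)
        rw [hv', ← ha] at c1
        rw [hv', ← hb] at c2
        have hab : a ≠ b := by
          intro hab
          rw [ha, hb] at hab
          have := (List.nodup_cons.1 s3).2
          rw [List.nodup_iff_injective_get] at this
          have h7 := @this ⟨i, by simp only [List.length_cons]; omega⟩
            ⟨i + 2, by simp only [List.length_cons]; omega⟩ hab
          rw [Fin.mk.injEq] at h7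
          omega
        have hla : lev p + 1 ≤ lev a := by
          apply ht
          rw [ha, List.tail_cons]
          exact List.getElem_mem _
        have hlb : lev p + 1 ≤ lev b := by
          apply ht
          rw [hb, List.tail_cons]
          exact List.getElem_mem _
        have hvpar : (v.1 + v.2) % 2 = 0 := by
          unfold lev at hve
          omega
        have up : ∀ z : V, lev p + 1 ≤ lev z → (Adj z v ∨ Adj v z) → z = (v.1 + 1, v.2) := by
          intro z hz hadj
          unfold lev at hz hve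
          have : z.1 = v.1 + 1 ∧ z.2 = v.2 := by
            rcases hadj with h | h <;> rcases h with h | h | ⟨h, h'⟩ | ⟨h, h'⟩ <;>
            · have h3 := congrArg Prod.fst h
              have h4 := congrArg Prod.snd h
              simp only [Prod.fst_sub, Prod.snd_sub, Int.even_iff] at *
              omega
          exact Prod.ext this.1 this.2
        exact hab ((up a hla (Or.inl c1)).trans (up b hlb (Or.inr c2)).symm)
    -- the sum
    have hmaps : ∀ l ∈ F, l.tail.headD (0, 0) ∈ P := by
      intro l hl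
      obtain ⟨u, hu, t, rfl, -⟩ := hstruct l hl
      simpa using hu
    rw [← Finset.sum_fiberwise_of_maps_to hmaps]
    have hone : ∀ u ∈ P, ∑ l ∈ F with l.tail.headD (0, 0) = u, (mu0⁻¹) ^ (l.length - 1) ≤
        mu0 * (Real.sqrt 2)⁻¹ ^ B.length := by
      intro u hu
      obtain ⟨Fu, hFu⟩ : ∃ Fu, Fu = F.filter (fun l => l.tail.headD (0, 0) = u) := ⟨_, rfl⟩
      rw [← hFu]
      obtain ⟨hue, hul⟩ := hPe u hu
      have hform : ∀ l ∈ Fu, ∃ t : List V, l = p :: u :: t ∧ Stop u L (u :: t) ∧
          (∀ v ∈ t, lev u + 1 ≤ lev v) ∧ ∀ v ∈ l, Resp B v := by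
        intro l hl
        rw [hFu, Finset.mem_filter] at hl
        obtain ⟨u', hu', t, hlt, h5, h6⟩ := hstruct l hl.1
        have : u' = u := by
          rw [← hl.2, hlt]
          simp
        subst this
        exact ⟨t, hlt, h5, h6, (hF l hl.1).2.2⟩
      have htinj : Set.InjOn List.tail (Fu : Set (List V)) := by
        intro l hl l' hl' h
        obtain ⟨t, rfl, -⟩ := hform l hl
        obtain ⟨t', rfl, -⟩ := hform l' hl'
        rw [List.tail_cons, List.tail_cons] at h
        rw [h]
      have key := even_start u hue B H L (by rw [hul]; exact hB) hL (Fu.image List.tail) (by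
        intro l' hl'
        obtain ⟨l, hl, rfl⟩ := Finset.mem_image.1 hl'
        obtain ⟨t, rfl, h5, h6, h7⟩ := hform l hl
        rw [List.tail_cons]
        exact ⟨h5, h6, fun v hv => h7 v (List.mem_cons_of_mem _ hv)⟩)
      rw [Finset.sum_image htinj] at key
      refine le_trans (Finset.sum_le_sum fun l hl => ?_) key
      obtain ⟨t, rfl, -⟩ := hform l hl
      simp only [List.tail_cons, List.length_cons, Nat.add_sub_cancel]
      have h8 : 0 ≤ mu0⁻¹ := by positivity
      have h9 : mu0⁻¹ ≤ 1 := inv_le_one_of_one_le₀ hmu1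
      exact pow_le_pow_of_le_one h8 h9 (by omega)
    calc ∑ u ∈ P, ∑ l ∈ F with l.tail.headD (0, 0) = u, (mu0⁻¹) ^ (l.length - 1) ≤
        ∑ _u ∈ P, mu0 * (Real.sqrt 2)⁻¹ ^ B.length := Finset.sum_le_sum hone
      _ = P.card * (mu0 * (Real.sqrt 2)⁻¹ ^ B.length) := by
          rw [Finset.sum_const, nsmul_eq_mul]
      _ ≤ 2 * (mu0 * (Real.sqrt 2)⁻¹ ^ B.length) := by
          apply mul_le_mul_of_nonneg_right _ (by positivity)
          exact_mod_cast hPc
      _ = _ := by ring

end Run7.h287.ST
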