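import Pool.Agent.Run7.h287.ST.Ahl2

set_option autoImplicit false

/-! Honeycomb lattice: the distortion estimate, axis in the basic sector. -/

namespace Run7.h287.ST

open H978R2.Hex
open Pool.Agent.Y981.QB (lev Sector)

theorem f_cont {f : ℝ → ℝ} (hfL : ∀ x y, |f x - f y| ≤ |x - y| / 100) : Continuous f := by
  have h : LipschitzWith 1 f := by
    apply LipschitzWith.of_dist_le_mul
    intro x y
    rw [Real.dist_eq, Real.dist_eq, NNReal.coe_one, one_mul]
    refine (hfL x y).trans ?_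
    have := abs_nonneg (x - y)
    linarith
  exact h.continuous

theorem inv_int {f : ℝ → ℝ} (hf1 : ∀ x, 1 ≤ f x) (hfL : ∀ x y, |f x - f y| ≤ |x - y| / 100)
    (a b : ℝ) : IntervalIntegrable (fun x => 1 / f x) MeasureTheory.volume a b := by
  apply Continuous.intervalIntegrable
  apply continuous_const.div (f_cont hfL)
  intro x
  have := hf1 x
  linarith

theorem int_le {f : ℝ → ℝ} (c a b : ℝ) (hab : a ≤ b)
    (h : ∀ x, a ≤ x → x ≤ b → 1 / f x ≤ c) (h0 : ∀ x, 0 ≤ 1 / f x) :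
    ∫ x in a..b, 1 / f x ≤ c * (b - a) := by
  have h1 := intervalIntegral.norm_integral_le_of_norm_le_const (a := a) (b := b)
    (f := fun x => 1 / f x) (C := c) (by
      intro x hx
      rw [Set.uIoc_of_le hab] at hx
      rw [Real.norm_eq_abs, abs_of_nonneg (h0 x)]
      exact h x hx.1.le hx.2)
  rw [abs_of_nonneg (by linarith)] at h1
  exact (le_abs_self _).trans h1

theorem int_nonneg {f : ℝ → ℝ} (a b : ℝ) (hab : a ≤ b) (h0 : ∀ x, 0 ≤ 1 / f x) :
    0 ≤ ∫ x in a..b, 1 / f x :=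
  intervalIntegral.integral_nonneg hab (fun x _ => h0 x)

/-- each block takes a bounded part of the integral -/
theorem int_blocks {f : ℝ → ℝ} (hf1 : ∀ x, 1 ≤ f x) (hfL : ∀ x y, |f x - f y| ≤ |x - y| / 100)
    {lam : ℝ} (hlam : 1 ≤ lam) (a : ℤ) : ∀ (n : ℕ) (d : ℤ),
    ∫ x in (((d - a : ℤ) : ℝ) / lam)..((((nx (GG f lam a))^[n] d - a : ℤ) : ℝ) / lam), 1 / f x ≤
      57 * n := by
  have h0 : ∀ x, 0 ≤ 1 / f x := fun x => by
    have := hf1 x
    positivity
  intro n
  induction n with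
  | zero =>
    intro d
    simp
  | succ n ih =>
    intro d
    rw [Function.iterate_succ_apply]
    have h1 := ih (nx (GG f lam a) d)
    obtain ⟨g1, g2, g3⟩ := GG_ge hf1 lam a d
    obtain ⟨x0, hx0⟩ : ∃ x0 : ℝ, x0 = ((d - a : ℤ) : ℝ) / lam := ⟨_, rfl⟩
    obtain ⟨x1, hx1⟩ : ∃ x1 : ℝ, x1 = ((nx (GG f lam a) d - a : ℤ) : ℝ) / lam := ⟨_, rfl⟩
    rw [← hx0] at g1 g2
    have hf0 := hf1 x0
    have hlam0 : 0 < lam := by linarith
    have hd : x1 - x0 = (2 * (GG f lam a d : ℝ) + 2) / lam := by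
      rw [hx0, hx1]
      unfold nx
      push_cast
      ring
    have hg16 : (16 : ℝ) ≤ GG f lam a d := by exact_mod_cast g3
    have hd0 : 0 ≤ x1 - x0 := by
      rw [hd]
      positivity
    have hd1 : x1 - x0 ≤ 36 * f x0 := by
      rw [hd, div_le_iff₀ hlam0]
      nlinarith
    have h2 : ∫ x in x0..x1, 1 / f x ≤ 57 := by
      have h3 := int_le (f := f) (1 / (16 / 25 * f x0)) x0 x1 (by linarith) (by
        intro x h4 h5
        have h6 := (abs_le.1 (hfL x x0)).1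
        have h7 : |x - x0| ≤ 36 * f x0 := by
          rw [abs_of_nonneg (by linarith)]
          linarith
        have h8 : 16 / 25 * f x0 ≤ f x := by linarith
        exact one_div_le_one_div_of_le (by positivity) h8) h0
      refine h3.trans ?_
      rw [one_div_mul_eq_div, div_le_iff₀ (by positivity)]
      linarith
    rw [← hx1] at h1
    rw [← hx0, ← intervalIntegral.integral_add_adjacent_intervals (inv_int hf1 hfL x0 x1)
      (inv_int hf1 hfL x1 _)]
    push_cast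
    push_cast at h1
    linarith

/-- the height of the vertices of level `k`, in the direction of edges, above `p` -/
noncomputable def hl (a k : ℤ) : ℝ := 3 / 4 * ((k - a : ℤ) : ℝ) + ((k % 2 - a % 2 : ℤ) : ℝ) / 4

/-- the height above `p` -/
noncomputable def hgt (p v : V) : ℝ :=
  (Real.sqrt 3 * (pos v - pos p).re - (pos v - pos p).im) / 2

theorem hgt_eq (p v : V) : hgt p v = hl (lev p) (lev v) := by
  have h3 : Real.sqrt 3 * Real.sqrt 3 = 3 := Real.mul_self_sqrt (by norm_num)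
  have e1 : lev v % 2 = (v.1 + v.2) % 2 := by unfold lev; omega
  have e2 : lev p % 2 = (p.1 + p.2) % 2 := by unfold lev; omega
  unfold hgt hl
  rw [e1, e2]
  unfold pos ht lev
  simp only [Complex.sub_re, Complex.sub_im]
  push_cast
  linear_combination ((v.1 : ℝ) - p.1) / 4 * h3

theorem hl_lt {a k k' : ℤ} (h : k < k') : hl a k < hl a k' := by
  unfold hl
  rcases eq_or_lt_of_le (Int.add_one_le_of_lt h) with h1 | h1
  · rw [← h1]
    have h2 : (k + 1) % 2 - a % 2 ≥ k % 2 - a % 2 - 1 := by omega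
    have h3 : (((k + 1) % 2 - a % 2 : ℤ) : ℝ) ≥ ((k % 2 - a % 2 - 1 : ℤ) : ℝ) := by exact_mod_cast h2
    push_cast at h3 ⊢
    linarith
  · have h2 : k' % 2 - a % 2 ≥ k % 2 - a % 2 - 1 := by omega
    have h3 : ((k' % 2 - a % 2 : ℤ) : ℝ) ≥ ((k % 2 - a % 2 - 1 : ℤ) : ℝ) := by exact_mod_cast h2
    have h4 : ((k + 2 : ℤ) : ℝ) ≤ (k' : ℝ) := by
      have : k + 2 ≤ k' := by omega
      exact_mod_cast this
    push_cast at h3 h4 ⊢
    linarith

theorem hl_le {a k k' : ℤ} (h : k ≤ k') : hl a k ≤ hl a k' := by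
  rcases eq_or_lt_of_le h with rfl | h
  · exact le_rfl
  · exact (hl_lt h).le

theorem hl_pos {a k : ℤ} (h : 0 < hl a k) : a + 1 ≤ k := by
  by_contra hc
  have h1 : hl a k ≤ hl a a := hl_le (by omega)
  have h2 : hl a a = 0 := by
    unfold hl
    simp
  linarith

theorem hl_bound (a k : ℤ) : hl a k ≤ 3 / 4 * ((k - a : ℤ) : ℝ) + 1 / 4 := by
  unfold hl
  have h1 : k % 2 - a % 2 ≤ 1 := by omega
  have h2 : ((k % 2 - a % 2 : ℤ) : ℝ) ≤ 1 := by exact_mod_cast h1
  linarith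

/-- the first level of height at least `h` -/
theorem exists_level (a : ℤ) (h : ℝ) : ∃ L : ℤ, ∀ k, h ≤ hl a k ↔ L ≤ k := by
  have hb : ∃ b : ℤ, ∀ z : ℤ, h ≤ hl a z → b ≤ z := by
    refine ⟨⌊4 / 3 * (h - 1 / 4)⌋ + a, fun z hz => ?_⟩
    have h1 := hl_bound a z
    have h2 : 4 / 3 * (h - 1 / 4) ≤ ((z - a : ℤ) : ℝ) := by linarith
    have h3 : ⌊4 / 3 * (h - 1 / 4)⌋ ≤ z - a := by
      have := (Int.floor_le (4 / 3 * (h - 1 / 4))).trans h2
      exact_mod_cast this
    omega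
  have hi : ∃ z : ℤ, h ≤ hl a z := by
    refine ⟨⌈4 / 3 * (h + 1 / 4)⌉ + a, ?_⟩
    unfold hl
    have h1 := Int.le_ceil (4 / 3 * (h + 1 / 4))
    have h2 : -1 ≤ (⌈4 / 3 * (h + 1 / 4)⌉ + a) % 2 - a % 2 := by omega
    have h3 : (-1 : ℝ) ≤ (((⌈4 / 3 * (h + 1 / 4)⌉ + a) % 2 - a % 2 : ℤ) : ℝ) := by exact_mod_cast h2
    rw [Int.add_sub_cancel]
    linarith
  obtain ⟨L, hL1, hL2⟩ := Int.exists_least_of_bdd hb hi
  exact ⟨L, fun k => ⟨hL2 k, fun hk => hL1.trans (hl_le hk)⟩⟩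

/-- **The estimate, axis in the basic sector.** -/
theorem ahl_sector {f : ℝ → ℝ} (hf1 : ∀ x, 1 ≤ f x) (hfL : ∀ x y, |f x - f y| ≤ |x - y| / 100)
    {e : ℂ} (he : e.re ^ 2 + e.im ^ 2 = 1) (hs : Sector e) (p : V) (h : ℝ) (hh : 4 ≤ h)
    (F : Finset (List V))
    (hF : ∀ l ∈ F, l.head? = some p ∧ l.IsChain Adj ∧ l.Nodup ∧
      (∀ v ∈ l, (v ≠ p → 0 < hgt p v) ∧ |cy e p v| ≤ f (cx e p v)) ∧
      (∀ v ∈ l.dropLast, hgt p v < h) ∧ ∀ v ∈ l.getLast?, h ≤ hgt p v) :
    ∑ l ∈ F, (mu0⁻¹) ^ (l.length - 1) ≤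
      8 * Real.exp (-(1 / 200 * ∫ x in (0 : ℝ)..h, 1 / f x)) := by
  classical
  obtain ⟨lam, κ, hlam, hlam2, hκ0, hκ4, hgeo⟩ := geoE he hs
  have hlam0 : 0 < lam := by linarith
  have h0 : ∀ x, 0 ≤ 1 / f x := fun x => by
    have := hf1 x
    positivity
  have h01 : ∀ x, 1 / f x ≤ 1 := fun x => by
    have := hf1 x
    rw [div_le_one (by linarith)]
    exact this
  obtain ⟨a, ha⟩ : ∃ a, a = lev p := ⟨_, rfl⟩
  obtain ⟨L, hL⟩ := exists_level a h
  obtain ⟨H, hH1, hH2⟩ : ∃ H : ℤ, Even H ∧ (L = H ∨ L = H + 1) := by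
    by_cases hLe : Even L
    · exact ⟨L, hLe, Or.inl rfl⟩
    · refine ⟨L - 1, ?_, Or.inr (by omega)⟩
      rw [Int.even_iff] at *
      omega
  obtain ⟨A, hA⟩ : ∃ A : ℤ, A = lev p + if Even (p.1 + p.2) then 0 else 1 := ⟨_, rfl⟩
  have hAe : Even A := by
    rw [hA]
    unfold lev
    rw [Int.even_iff]
    split_ifs with hp <;> rw [Int.even_iff] at hp <;> omega
  have hA1 : a ≤ A ∧ A ≤ a + 1 := by
    rw [hA, ha]
    split_ifs <;> omega
  obtain ⟨I, hI⟩ : ∃ I, I = ∫ x in (0 : ℝ)..h, 1 / f x := ⟨_, rfl⟩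
  rw [← hI]
  have hI0 : 0 ≤ I := by
    rw [hI]
    exact int_nonneg _ _ (by linarith) h0
  obtain ⟨N, hN⟩ : ∃ N, N = ⌊(I - 5) / 57⌋₊ := ⟨_, rfl⟩
  -- the position of `H`
  have hLh : h ≤ hl a L := (hL L).2 le_rfl
  have hHa : 4 / 3 * (h - 1) ≤ ((H - a : ℤ) : ℝ) := by
    have h1 := hl_bound a L
    have h2 : ((L - a : ℤ) : ℝ) ≤ ((H - a : ℤ) : ℝ) + 1 := by
      have : L - a ≤ H - a + 1 := by omega
      exact_mod_cast this
    linarith
  have hX : h - 1 ≤ ((H - a : ℤ) : ℝ) / lam := by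
    rw [le_div_iff₀ hlam0]
    nlinarith
  have hHd : A + 2 ≤ H := by
    have h1 : (4 : ℝ) ≤ ((H - a : ℤ) : ℝ) := by linarith
    have h2 : 4 ≤ H - a := by exact_mod_cast h1
    omega
  have hG : ∀ d, 1 ≤ GG f lam a d := fun d => by
    have := (GG_ge hf1 lam a d).2.2
    omega
  have hNH : (nx (GG f lam a))^[N] (A + 2) ≤ H := by
    rcases lt_or_ge I 5 with hI5 | hI5
    · have : N = 0 := by
        rw [hN]
        apply Nat.floor_of_nonpos
        apply div_nonpos_of_nonpos_of_nonneg <;> linarith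
      rw [this]
      exact hHd
    · by_contra hcon
      push Not at hcon
      obtain ⟨x0, hx0⟩ : ∃ x0 : ℝ, x0 = ((A + 2 - a : ℤ) : ℝ) / lam := ⟨_, rfl⟩
      obtain ⟨x1, hx1⟩ : ∃ x1 : ℝ, x1 = (((nx (GG f lam a))^[N] (A + 2) - a : ℤ) : ℝ) / lam :=
        ⟨_, rfl⟩
      have h1 := int_blocks hf1 hfL hlam a N (A + 2)
      rw [← hx0, ← hx1] at h1
      have h2 : (0 : ℝ) ≤ x0 ∧ x0 ≤ 3 := by
        have h3 : (0 : ℝ) ≤ ((A + 2 - a : ℤ) : ℝ) := by
          have : 0 ≤ A + 2 - a := by omega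
          exact_mod_cast this
        have h4 : ((A + 2 - a : ℤ) : ℝ) ≤ 3 := by
          have : A + 2 - a ≤ 3 := by omega
          exact_mod_cast this
        rw [hx0]
        constructor
        · positivity
        · rw [div_le_iff₀ hlam0]
          linarith
      have h3 : ∫ x in (0 : ℝ)..x0, 1 / f x ≤ 3 := by
        have := int_le (f := f) 1 0 x0 h2.1 (fun x _ _ => h01 x) h0
        linarith [h2.2]
      have h4 : h - 1 ≤ x1 := by
        refine hX.trans ?_
        rw [hx1]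
        apply div_le_div_of_nonneg_right _ hlam0.le
        have : H - a ≤ (nx (GG f lam a))^[N] (A + 2) - a := by omega
        exact_mod_cast this
      have h5 : ∫ x in (h - 1)..h, 1 / f x ≤ 1 := by
        have := int_le (f := f) 1 (h - 1) h (by linarith) (fun x _ _ => h01 x) h0
        linarith
      have h6 := int_nonneg (f := f) (h - 1) x1 h4 h0
      have e1 := intervalIntegral.integral_add_adjacent_intervals (inv_int hf1 hfL 0 x0)
        (inv_int hf1 hfL x0 x1)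
      have e2 := intervalIntegral.integral_add_adjacent_intervals (inv_int hf1 hfL 0 (h - 1))
        (inv_int hf1 hfL (h - 1) x1)
      have e3 := intervalIntegral.integral_add_adjacent_intervals (inv_int hf1 hfL 0 (h - 1))
        (inv_int hf1 hfL (h - 1) h)
      have h7 : (N : ℝ) ≤ (I - 5) / 57 := by
        rw [hN]
        exact Nat.floor_le (by apply div_nonneg <;> linarith)
      linarith
  -- the blocks
  obtain ⟨B, hB⟩ : ∃ B, B = bls (GG f lam a) (YY f lam κ a p.2) N (A + 2) := ⟨_, rfl⟩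
  have hBV : BV A B H := by
    rw [hB]
    exact bls_bv hG N (A + 2) A H le_rfl (by rw [Int.even_iff] at *; omega) hH1 hNH
  have hBl : B.length = N := by rw [hB, bls_length]
  have key := tip_start p L B H hH2 (by rw [← hA]; exact hBV) F (by
    intro l hl
    obtain ⟨g1, g2, g3, g4, g5, g6⟩ := hF l hl
    refine ⟨⟨g1, g2, g3, ?_, ?_⟩, ?_, ?_⟩
    · intro v hv
      have h1 := g5 v hv
      rw [hgt_eq, ← ha] at h1
      by_contra hc
      have := (hL (lev v)).2 (by omega)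
      linarith
    · intro v hv
      have h1 := g6 v hv
      rw [hgt_eq, ← ha] at h1
      exact (hL (lev v)).1 h1
    · intro v hv
      have hne : v ≠ p := by
        intro hvp
        match l, g1, g3, hv with
        | [], _, _, hv => simp at hv
        | q :: t, g1, g3, hv =>
          simp only [List.head?_cons, Option.some.injEq] at g1
          rw [List.tail_cons, hvp, ← g1] at hv
          exact (List.nodup_cons.1 g3).1 hv
      have h1 := (g4 v (List.mem_of_mem_tail hv)).1 hne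
      rw [hgt_eq] at h1
      exact hl_pos h1
    · intro v hv c hc h1 h2
      have hm := mem_bls hG N (A + 2) c (by rw [← hB]; exact hc)
      rw [hm.2.2] at h2 ⊢
      rw [hm.2.1]
      rw [ha] at h2 ⊢
      exact block_row hlam hκ0 hκ4 hgeo hf1 hfL p v (g4 v hv).2 c.1 h1 h2)
  refine key.trans ?_
  rw [hBl]
  have hmu2 : mu0 ≤ 2 := by
    unfold mu0
    rw [Real.sqrt_le_left (by norm_num)]
    have : Real.sqrt 2 ≤ 2 := by
      rw [Real.sqrt_le_left (by norm_num)]
      norm_num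
    linarith
  have hmu1 := one_le_mu
  have hl2 := Real.log_two_gt_d9
  have hl2' := Real.log_two_lt_d9
  have e4 : (Real.sqrt 2)⁻¹ = Real.exp (-(Real.log 2 / 2)) := by
    rw [Real.sqrt_eq_rpow, ← Real.rpow_neg (by norm_num), Real.rpow_def_of_pos (by norm_num)]
    congr 1
    ring
  have h8 : (I - 62) / 57 ≤ (N : ℝ) := by
    have := Nat.lt_floor_add_one ((I - 5) / 57)
    rw [← hN] at this
    have e : (I - 62) / 57 = (I - 5) / 57 - 1 := by ring
    linarith
  have h9 : (Real.sqrt 2)⁻¹ ^ N ≤ 2 * Real.exp (-(1 / 200 * I)) := by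
    rw [e4, ← Real.exp_nat_mul]
    calc Real.exp ((N : ℝ) * (-(Real.log 2 / 2))) ≤ Real.exp (Real.log 2 + -(1 / 200 * I)) := by
          apply Real.exp_le_exp.2
          have h10 : (N : ℝ) * (-(Real.log 2 / 2)) ≤ (I - 62) / 57 * (-(Real.log 2 / 2)) := by
            apply mul_le_mul_of_nonpos_right h8
            linarith
          nlinarith
      _ = 2 * Real.exp (-(1 / 200 * I)) := by
          rw [Real.exp_add, Real.exp_log (by norm_num)]
  calc 2 * mu0 * (Real.sqrt 2)⁻¹ ^ N ≤ 2 * 2 * (2 * Real.exp (-(1 / 200 * I))) := by gcongr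
    _ = 8 * Real.exp (-(1 / 200 * I)) := by ring

end Run7.h287.ST
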