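import Pool.Agent.Run7.h287.ST.Ahl3
import Pool.Agent.Y495.QB.Sym

set_option autoImplicit false

/-! Honeycomb lattice: the distortion estimate, all axes. -/

namespace Run7.h287.ST

open H978R2.Hex
open Pool.Agent.Y981.QB (lev Sector)
open Pool.Agent.Y495.QB (rho rf tau rho_one rho_two rf_two tau_two pres_rho pres_rf pres_tau)

/-- `T` is a symmetry of the lattice with linear part `A` -/
structure SymL (T : V → V) (A : ℂ → ℂ) : Prop where
  inj : Function.Injective T
  adj : ∀ u v, Adj u v → Adj (T u) (T v)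
  lin : ∀ u v, pos (T u) - pos (T v) = A (pos u - pos v)
  dot : ∀ z w : ℂ, (A z).re * (A w).re + (A z).im * (A w).im = z.re * w.re + z.im * w.im
  cross : ∀ z w : ℂ, |(A z).im * (A w).re - (A z).re * (A w).im| = |z.im * w.re - z.re * w.im|

theorem SymL.comp {T T' : V → V} {A A' : ℂ → ℂ} (h : SymL T A) (h' : SymL T' A') :
    SymL (T ∘ T') (A ∘ A') where
  inj := h.inj.comp h'.inj
  adj := fun u v ha => h.adj _ _ (h'.adj _ _ ha)
  lin := fun u v => by
    rw [Function.comp, Function.comp, h.lin, h'.lin]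
    rfl
  dot := fun z w => by
    rw [Function.comp, Function.comp, h.dot, h'.dot]
  cross := fun z w => by
    rw [Function.comp, Function.comp, h.cross, h'.cross]

theorem SymL.id : SymL (fun v => v) (fun z => z) where
  inj := fun _ _ h => h
  adj := fun _ _ h => h
  lin := fun _ _ => rfl
  dot := fun _ _ => rfl
  cross := fun _ _ => rfl

/-- rotation by 120 degrees -/
noncomputable def Ar (z : ℂ) : ℂ :=
  ⟨-(z.re / 2) - Real.sqrt 3 / 2 * z.im, Real.sqrt 3 / 2 * z.re - z.im / 2⟩

/-- reflection -/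
noncomputable def Af (z : ℂ) : ℂ := ⟨-z.re, z.im⟩

/-- point reflection -/
noncomputable def At (z : ℂ) : ℂ := ⟨-z.re, -z.im⟩

theorem sq3 : Real.sqrt 3 * Real.sqrt 3 = 3 := Real.mul_self_sqrt (by norm_num)

theorem symL_rho : SymL rho Ar where
  inj := pres_rho.inj
  adj := fun u v h => pres_rho.adj h
  lin := fun u v => by
    have hr1 := congrArg (fun z : ℤ => (z : ℝ)) (rho_one u)
    have hr2 := congrArg (fun z : ℤ => (z : ℝ)) (rho_two u)
    have hr3 := congrArg (fun z : ℤ => (z : ℝ)) (rho_one v)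
    have hr4 := congrArg (fun z : ℤ => (z : ℝ)) (rho_two v)
    push_cast at hr1 hr2 hr3 hr4
    unfold Ar pos
    apply Complex.ext
    · simp only [Complex.sub_re, Complex.sub_im]
      linear_combination Real.sqrt 3 / 4 * hr1 - Real.sqrt 3 / 4 * hr3
    · simp only [Complex.sub_re, Complex.sub_im]
      linear_combination 1 / 4 * hr2 - 1 / 4 * hr4 - ((u.1 : ℝ) - v.1) / 4 * sq3
  dot := fun z w => by
    unfold Ar
    simp only
    linear_combination (z.re * w.re + z.im * w.im) / 4 * sq3
  cross := fun z w => by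
    unfold Ar
    simp only
    congr 1
    linear_combination (z.im * w.re - z.re * w.im) / 4 * sq3

theorem symL_rf : SymL rf Af where
  inj := pres_rf.inj
  adj := fun u v h => pres_rf.adj h
  lin := fun u v => by
    have e1 := congrArg (fun z : ℤ => (z : ℝ)) (rf_two u)
    have e2 := congrArg (fun z : ℤ => (z : ℝ)) (rf_two v)
    unfold Af pos
    rw [e1, e2]
    apply Complex.ext
    · unfold rf
      simp only [Complex.sub_re]
      push_cast
      ring
    · simp only [Complex.sub_im]
  dot := fun z w => by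
    unfold Af
    simp only
    ring
  cross := fun z w => by
    unfold Af
    simp only
    rw [← abs_neg]
    congr 1
    ring

theorem symL_tau : SymL tau At where
  inj := pres_tau.inj
  adj := fun u v h => pres_tau.adj h
  lin := fun u v => by
    have e1 := congrArg (fun z : ℤ => (z : ℝ)) (tau_two u)
    have e2 := congrArg (fun z : ℤ => (z : ℝ)) (tau_two v)
    unfold At pos
    rw [e1, e2]
    apply Complex.ext
    · unfold tau
      simp only [Complex.sub_re]
      push_cast
      ring
    · simp only [Complex.sub_im]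
      push_cast
      ring
  dot := fun z w => by
    unfold At
    simp only
    ring
  cross := fun z w => by
    unfold At
    simp only
    congr 1
    ring

/-- the direction `exp (- i π / 6)` -/
noncomputable def u0 : ℂ := ⟨Real.sqrt 3 / 2, -(1 / 2)⟩

/-- the direction of an edge can be moved to `u0` -/
theorem exists_edge {v w : V} (h : Adj v w) :
    ∃ T A, SymL T A ∧ A (pos w - pos v) = u0 := by
  have h3 := sq3
  -- the six directions
  have key : ∀ z : ℂ, (z = u0 ∨ z = Ar u0 ∨ z = Ar (Ar u0) ∨ z = At u0 ∨ z = At (Ar u0) ∨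
      z = At (Ar (Ar u0))) → ∃ T A, SymL T A ∧ A z = u0 := by
    have r3 : Ar (Ar (Ar u0)) = u0 := by
      unfold Ar u0
      apply Complex.ext
      · simp only
        linear_combination (1 / 8 * Real.sqrt 3) * h3
      · simp only
        linear_combination (-(3 + Real.sqrt 3 * Real.sqrt 3) / 16) * h3
    have t2 : ∀ z, At (At z) = z := by
      intro z
      unfold At
      apply Complex.ext <;> simp
    intro z hz
    rcases hz with rfl | rfl | rfl | rfl | rfl | rfl
    · exact ⟨_, _, SymL.id, rfl⟩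
    · exact ⟨_, _, symL_rho.comp symL_rho, r3⟩
    · exact ⟨_, _, symL_rho, r3⟩
    · exact ⟨_, _, symL_tau, t2 _⟩
    · refine ⟨_, _, (symL_rho.comp symL_rho).comp symL_tau, ?_⟩
      show Ar (Ar (At (At (Ar u0)))) = u0
      rw [t2, r3]
    · refine ⟨_, _, symL_rho.comp symL_tau, ?_⟩
      show Ar (At (At (Ar (Ar u0)))) = u0
      rw [t2, r3]
  apply key
  have a1 : Ar u0 = ⟨0, 1⟩ := by
    unfold Ar u0
    apply Complex.ext
    · simp only
      ring
    · simp only
      linear_combination (1 / 4 : ℝ) * h3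
  have a2 : Ar (Ar u0) = ⟨-(Real.sqrt 3 / 2), -(1 / 2)⟩ := by
    rw [a1]
    unfold Ar
    apply Complex.ext <;> simp only <;> ring
  rw [a2, a1]
  unfold u0 At pos ht
  rcases Int.emod_two_eq_zero_or_one (v.1 + v.2) with hv | hv <;>
  rcases h with h | h | ⟨h, h'⟩ | ⟨h, h'⟩
  all_goals
    have e1 := congrArg Prod.fst h
    have e2 := congrArg Prod.snd h
    simp only [Prod.fst_sub, Prod.snd_sub] at e1 e2
  · -- even, (1, 0)
    left
    have e3 : (w.1 + w.2) % 2 = 1 := by omega
    have e4 : w.1 = v.1 + 1 := by omega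
    have e5 : w.2 = v.2 := by omega
    rw [e3, hv, e4, e5]
    apply Complex.ext <;> simp only [Complex.sub_re, Complex.sub_im] <;> push_cast <;> ring
  · -- even, (-1, 0)
    right; right; left
    have e3 : (w.1 + w.2) % 2 = 1 := by omega
    have e4 : w.1 = v.1 - 1 := by omega
    have e5 : w.2 = v.2 := by omega
    rw [e3, hv, e4, e5]
    apply Complex.ext <;> simp only [Complex.sub_re, Complex.sub_im] <;> push_cast <;> ring
  · -- even, (0, 1)
    right; left
    have e3 : (w.1 + w.2) % 2 = 1 := by omega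
    have e4 : w.1 = v.1 := by omega
    have e5 : w.2 = v.2 + 1 := by omega
    rw [e3, hv, e4, e5]
    apply Complex.ext <;> simp only [Complex.sub_re, Complex.sub_im] <;> push_cast <;> ring
  · exfalso
    rw [Int.even_iff] at h'
    omega
  · -- odd, (1, 0)
    right; right; right; right; right
    have e3 : (w.1 + w.2) % 2 = 0 := by omega
    have e4 : w.1 = v.1 + 1 := by omega
    have e5 : w.2 = v.2 := by omega
    rw [e3, hv, e4, e5]
    apply Complex.ext <;> simp only [Complex.sub_re, Complex.sub_im] <;> push_cast <;> ring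
  · -- odd, (-1, 0)
    right; right; right; left
    have e3 : (w.1 + w.2) % 2 = 0 := by omega
    have e4 : w.1 = v.1 - 1 := by omega
    have e5 : w.2 = v.2 := by omega
    rw [e3, hv, e4, e5]
    apply Complex.ext <;> simp only [Complex.sub_re, Complex.sub_im] <;> push_cast <;> ring
  · exfalso
    rw [Int.even_iff] at h'
    omega
  · -- odd, (0, -1)
    right; right; right; right; left
    have e3 : (w.1 + w.2) % 2 = 0 := by omega
    have e4 : w.1 = v.1 := by omega
    have e5 : w.2 = v.2 - 1 := by omega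
    rw [e3, hv, e4, e5]
    apply Complex.ext <;> simp only [Complex.sub_re, Complex.sub_im] <;> push_cast <;> ring

/-- the axis can be moved to the basic sector -/
theorem exists_sym {v w : V} (h : Adj v w) {e : ℂ} (he : e.re ^ 2 + e.im ^ 2 = 1)
    (hue : Real.sqrt 3 / 2 ≤ (pos w - pos v).re * e.re + (pos w - pos v).im * e.im) :
    ∃ T A, SymL T A ∧ A (pos w - pos v) = u0 ∧ (A e).re ^ 2 + (A e).im ^ 2 = 1 ∧ Sector (A e) := by
  obtain ⟨T, A, hS, hA⟩ := exists_edge h
  have h3 := sq3
  have ht0 : 0 < Real.sqrt 3 := by positivity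
  have hd := hS.dot (pos w - pos v) e
  rw [hA] at hd
  rw [← hd] at hue
  have hn := hS.dot e e
  obtain ⟨c, hc⟩ : ∃ c, c = (A e).re := ⟨_, rfl⟩
  obtain ⟨s, hs⟩ : ∃ s, s = -(A e).im := ⟨_, rfl⟩
  have him : (A e).im = -s := by rw [hs]; ring
  have h1 : c ^ 2 + s ^ 2 = 1 := by
    rw [hc, hs]
    nlinarith
  have h2 : Real.sqrt 3 ≤ Real.sqrt 3 * c + s := by
    unfold u0 at hue
    simp only at hue
    rw [← hc, him] at hue
    linarith
  have hs0 : 0 ≤ s := by
    by_contra hcon
    push Not at hcon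
    have h4 : 1 < c := by
      by_contra h5
      push Not at h5
      nlinarith
    nlinarith
  by_cases hsec : Real.sqrt 3 * s ≤ c
  · refine ⟨T, A, hS, hA, ?_, ?_, ?_⟩
    · rw [← hc, him, neg_sq]
      exact h1
    · rw [him]
      linarith
    · rw [him, ← hc, neg_neg]
      exact hsec
  · push Not at hsec
    refine ⟨_, _, (symL_rf.comp (symL_rho.comp symL_rho)).comp hS, ?_, ?_⟩
    · show Af (Ar (Ar (A (pos w - pos v)))) = u0
      rw [hA]
      unfold Af Ar u0
      apply Complex.ext
      · simp only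
        linear_combination (1 / 8 * Real.sqrt 3) * h3
      · simp only
        linear_combination (-(1 / 8) : ℝ) * h3
    · have e1 : (Af (Ar (Ar (A e)))).re = (c + Real.sqrt 3 * s) / 2 := by
        unfold Af Ar
        simp only
        rw [← hc, him]
        linear_combination (c / 4) * h3
      have e2 : (Af (Ar (Ar (A e)))).im = -((Real.sqrt 3 * c - s) / 2) := by
        unfold Af Ar
        simp only
        rw [← hc, him]
        linear_combination (s / 4) * h3
      have hp : 0 ≤ Real.sqrt 3 * c - s := by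
        obtain ⟨P, hP⟩ : ∃ P, P = Real.sqrt 3 * c + s := ⟨_, rfl⟩
        obtain ⟨Q, hQ⟩ : ∃ Q, Q = Real.sqrt 3 * s - c := ⟨_, rfl⟩
        have h4 : P ^ 2 + Q ^ 2 = 4 := by
          rw [hP, hQ]
          linear_combination (4 : ℝ) * h1 + (c ^ 2 + s ^ 2) * h3
        have hQ0 : 0 < Q := by rw [hQ]; linarith
        have hQ1 : Q ≤ 1 := by
          have h5 : 3 ≤ P ^ 2 := by
            calc (3 : ℝ) = Real.sqrt 3 ^ 2 := by rw [pow_two, h3]
              _ ≤ P ^ 2 := pow_le_pow_left₀ ht0.le (by rw [hP]; exact h2) 2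
          nlinarith
        have h6 : Real.sqrt 3 * c - s = (P - Real.sqrt 3 * Q) / 2 := by
          rw [hP, hQ]
          linear_combination (s / 2) * h3
        rw [h6]
        have h7 : Real.sqrt 3 * Q ≤ Real.sqrt 3 * 1 := mul_le_mul_of_nonneg_left hQ1 ht0.le
        rw [hP] at *
        linarith
      constructor
      · show (Af (Ar (Ar (A e)))).re ^ 2 + (Af (Ar (Ar (A e)))).im ^ 2 = 1
        rw [e1, e2]
        linear_combination (1 : ℝ) * h1 + (c ^ 2 + s ^ 2) / 4 * h3
      · constructor
        · show (Af (Ar (Ar (A e)))).im ≤ 0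
          rw [e2]
          linarith
        · show Real.sqrt 3 * (-(Af (Ar (Ar (A e)))).im) ≤ (Af (Ar (Ar (A e)))).re
          rw [e1, e2, neg_neg]
          have h8 : Real.sqrt 3 * ((Real.sqrt 3 * c - s) / 2) =
              (3 * c - Real.sqrt 3 * s) / 2 := by
            linear_combination (c / 2) * h3
          rw [h8]
          linarith

/-- **The estimate.** -/
theorem ahl {f : ℝ → ℝ} (hf1 : ∀ x, 1 ≤ f x) (hfL : ∀ x y, |f x - f y| ≤ |x - y| / 100)
    {v₀ w₀ : V} (hu : Adj v₀ w₀) {e : ℂ} (he : e.re ^ 2 + e.im ^ 2 = 1)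
    (hue : Real.sqrt 3 / 2 ≤ (pos w₀ - pos v₀).re * e.re + (pos w₀ - pos v₀).im * e.im)
    (p : V) (h : ℝ) (hh : 4 ≤ h) (F : Finset (List V))
    (hF : ∀ l ∈ F, l.head? = some p ∧ l.IsChain Adj ∧ l.Nodup ∧
      (∀ v ∈ l, (v ≠ p → 0 < (pos v - pos p).re * (pos w₀ - pos v₀).re +
        (pos v - pos p).im * (pos w₀ - pos v₀).im) ∧ |cy e p v| ≤ f (cx e p v)) ∧
      (∀ v ∈ l.dropLast, (pos v - pos p).re * (pos w₀ - pos v₀).re +
        (pos v - pos p).im * (pos w₀ - pos v₀).im < h) ∧
      ∀ v ∈ l.getLast?, h ≤ (pos v - pos p).re * (pos w₀ - pos v₀).re +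
        (pos v - pos p).im * (pos w₀ - pos v₀).im) :
    ∑ l ∈ F, (mu0⁻¹) ^ (l.length - 1) ≤
      8 * Real.exp (-(1 / 200 * ∫ x in (0 : ℝ)..h, 1 / f x)) := by
  classical
  obtain ⟨T, A, hS, hA, hAe, hsec⟩ := exists_sym hu he hue
  have hcx : ∀ v, cx (A e) (T p) (T v) = cx e p v := by
    intro v
    unfold cx
    rw [hS.lin, hS.dot]
  have hcy : ∀ v, |cy (A e) (T p) (T v)| = |cy e p v| := by
    intro v
    unfold cy
    rw [hS.lin, hS.cross]
  have hhgt : ∀ v, hgt (T p) (T v) = (pos v - pos p).re * (pos w₀ - pos v₀).re +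
        (pos v - pos p).im * (pos w₀ - pos v₀).im := by
    intro v
    rw [← hS.dot, ← hS.lin, hA]
    unfold hgt u0
    simp only
    ring
  have hinj : Function.Injective (List.map T) := List.map_injective_iff.mpr hS.inj
  have key := ahl_sector hf1 hfL hAe hsec (T p) h hh (F.image (List.map T)) (by
    intro l' hl'
    obtain ⟨l, hl, rfl⟩ := Finset.mem_image.1 hl'
    obtain ⟨g1, g2, g3, g4, g5, g6⟩ := hF l hl
    refine ⟨?_, ?_, g3.map hS.inj, ?_, ?_, ?_⟩
    · rw [List.head?_map, g1, Option.map_some]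
    · rw [List.isChain_map]
      exact g2.imp fun u v huv => hS.adj u v huv
    · intro v' hv'
      obtain ⟨v, hv, rfl⟩ := List.mem_map.1 hv'
      obtain ⟨g7, g8⟩ := g4 v hv
      rw [hhgt, hcy, hcx]
      exact ⟨fun hne => g7 (fun hvp => hne (by rw [hvp])), g8⟩
    · intro v' hv'
      rw [← List.map_dropLast] at hv'
      obtain ⟨v, hv, rfl⟩ := List.mem_map.1 hv'
      rw [hhgt]
      exact g5 v hv
    · intro v' hv'
      rw [List.getLast?_map] at hv'
      simp only [Option.mem_def, Option.map_eq_some_iff] at hv'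
      obtain ⟨v, hv, rfl⟩ := hv'
      rw [hhgt]
      exact g6 v hv)
  rw [Finset.sum_image (fun a _ b _ h => hinj h)] at key
  simpa using key

end Run7.h287.ST
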