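import Pool.Agent.Run7.h287.ST.Ahl4
import Pool.Agent.Y67.QB.CN
import Pool.Agent.Y908.QB.Split
import Pool.Agent.Y981.QB.LightP

set_option autoImplicit false

/-! Honeycomb lattice: walks which pass a channel of variable width. -/

namespace Run7.h287.ST

open H978R2.Hex
open Pool.Agent.Y981.QB (lev Sector gt IsSW)

/-- the blocks of a channel -/
theorem blocks_exist {f : ℝ → ℝ} (hf1 : ∀ x, 1 ≤ f x)
    (hfL : ∀ x y, |f x - f y| ≤ |x - y| / 100) {e : ℂ} (he : e.re ^ 2 + e.im ^ 2 = 1)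
    (hs : Sector e) (o : V) (h : ℝ) (hh : 6 ≤ h) (A H : ℤ) (hA1 : lev o ≤ A) (hA2 : A ≤ lev o + 1)
    (hAe : Even A) (hHe : Even H) (hHa : 4 / 3 * (h - 2) ≤ ((H - lev o : ℤ) : ℝ)) :
    ∃ B : List (ℤ × ℤ × ℤ), BV A B H ∧ (∀ c ∈ B, A + 2 ≤ c.1) ∧
      (∀ v : V, (A + 2 < lev v → lev v < H → |cy e o v| ≤ f (cx e o v)) → Resp B v) ∧
      (Real.sqrt 2)⁻¹ ^ B.length ≤
        2 * Real.exp (-(1 / 200 * ∫ x in (0 : ℝ)..h, 1 / f x)) := by
  classical
  obtain ⟨lam, κ, hlam, hlam2, hκ0, hκ4, hgeo⟩ := geoE he hs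
  have hlam0 : 0 < lam := by linarith
  have h0 : ∀ x, 0 ≤ 1 / f x := fun x => by
    have := hf1 x
    positivity
  have h01 : ∀ x, 1 / f x ≤ 1 := fun x => by
    have := hf1 x
    rw [div_le_one (by linarith)]
    exact this
  obtain ⟨a, ha⟩ : ∃ a, a = lev o := ⟨_, rfl⟩
  rw [← ha] at hA1 hA2 hHa
  obtain ⟨I, hI⟩ : ∃ I, I = ∫ x in (0 : ℝ)..h, 1 / f x := ⟨_, rfl⟩
  rw [← hI]
  have hI0 : 0 ≤ I := by
    rw [hI]
    exact int_nonneg _ _ (by linarith) h0
  obtain ⟨N, hN⟩ : ∃ N, N = ⌊(I - 6) / 57⌋₊ := ⟨_, rfl⟩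
  have hX : h - 2 ≤ ((H - a : ℤ) : ℝ) / lam := by
    rw [le_div_iff₀ hlam0]
    nlinarith
  have hHd : A + 2 ≤ H := by
    have h1 : (5 : ℝ) ≤ ((H - a : ℤ) : ℝ) := by linarith
    have h2 : 5 ≤ H - a := by exact_mod_cast h1
    omega
  have hG : ∀ d, 1 ≤ GG f lam a d := fun d => by
    have := (GG_ge hf1 lam a d).2.2
    omega
  have hNH : (nx (GG f lam a))^[N] (A + 2) ≤ H := by
    rcases lt_or_ge I 6 with hI5 | hI5
    · have : N = 0 := by
        rw [hN]
        apply Nat.floor_of_nonpos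
        apply div_nonpos_of_nonpos_of_nonneg <;> linarith
      rw [this]
      exact hHd
    · by_contra hcon
      push Not at hcon
      obtain ⟨x0, hx0⟩ : ∃ x0 : ℝ, x0 = ((A + 2 - a : ℤ) : ℝ) / lam := ⟨_, rfl⟩
      obtain ⟨x1, hx1⟩ : ∃ x1 : ℝ, x1 = (((nx (GG f lam a))^[N] (A + 2) - a : ℤ) : ℝ) / lam :=
        ⟨_, rfl⟩
      have h1 := int_blocks hf1 hfL hlam a N (A + 2)
      rw [← hx0, ← hx1] at h1
      have h2 : (0 : ℝ) ≤ x0 ∧ x0 ≤ 3 := by
        have h3 : (0 : ℝ) ≤ ((A + 2 - a : ℤ) : ℝ) := by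
          have : 0 ≤ A + 2 - a := by omega
          exact_mod_cast this
        have h4 : ((A + 2 - a : ℤ) : ℝ) ≤ 3 := by
          have : A + 2 - a ≤ 3 := by omega
          exact_mod_cast this
        rw [hx0]
        constructor
        · positivity
        · rw [div_le_iff₀ hlam0]
          linarith
      have h3 : ∫ x in (0 : ℝ)..x0, 1 / f x ≤ 3 := by
        have := int_le (f := f) 1 0 x0 h2.1 (fun x _ _ => h01 x) h0
        linarith [h2.2]
      have h4 : h - 2 ≤ x1 := by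
        refine hX.trans ?_
        rw [hx1]
        apply div_le_div_of_nonneg_right _ hlam0.le
        have : H - a ≤ (nx (GG f lam a))^[N] (A + 2) - a := by omega
        exact_mod_cast this
      have h5 : ∫ x in (h - 2)..h, 1 / f x ≤ 2 := by
        have := int_le (f := f) 1 (h - 2) h (by linarith) (fun x _ _ => h01 x) h0
        linarith
      have h6 := int_nonneg (f := f) (h - 2) x1 h4 h0
      have e1 := intervalIntegral.integral_add_adjacent_intervals (inv_int hf1 hfL 0 x0)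
        (inv_int hf1 hfL x0 x1)
      have e2 := intervalIntegral.integral_add_adjacent_intervals (inv_int hf1 hfL 0 (h - 2))
        (inv_int hf1 hfL (h - 2) x1)
      have e3 := intervalIntegral.integral_add_adjacent_intervals (inv_int hf1 hfL 0 (h - 2))
        (inv_int hf1 hfL (h - 2) h)
      have h7 : (N : ℝ) ≤ (I - 6) / 57 := by
        rw [hN]
        exact Nat.floor_le (by apply div_nonneg <;> linarith)
      linarith
  -- the blocks
  obtain ⟨B, hB⟩ : ∃ B, B = bls (GG f lam a) (YY f lam κ a o.2) N (A + 2) := ⟨_, rfl⟩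
  have hBV : BV A B H := by
    rw [hB]
    exact bls_bv hG N (A + 2) A H le_rfl (by rw [Int.even_iff] at *; omega) hHe hNH
  have hBl : B.length = N := by rw [hB, bls_length]
  refine ⟨B, hBV, ?_, ?_, ?_⟩
  · intro c hc
    exact (mem_bls hG N (A + 2) c (by rw [← hB]; exact hc)).1
  · intro v hv c hc h1 h2
    have hm := mem_bls hG N (A + 2) c (by rw [← hB]; exact hc)
    have ht := bv_top B A H hBV c hc
    have hv' := hv (by omega) (by omega)
    rw [hm.2.2] at h2 ⊢
    rw [hm.2.1]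
    rw [ha] at h2 ⊢
    exact block_row hlam hκ0 hκ4 hgeo hf1 hfL o v hv' c.1 h1 h2
  · rw [hBl]
    have hl2 := Real.log_two_gt_d9
    have hl2' := Real.log_two_lt_d9
    have e4 : (Real.sqrt 2)⁻¹ = Real.exp (-(Real.log 2 / 2)) := by
      rw [Real.sqrt_eq_rpow, ← Real.rpow_neg (by norm_num), Real.rpow_def_of_pos (by norm_num)]
      congr 1
      ring
    have h8 : (I - 63) / 57 ≤ (N : ℝ) := by
      have := Nat.lt_floor_add_one ((I - 6) / 57)
      rw [← hN] at this
      have e : (I - 63) / 57 = (I - 6) / 57 - 1 := by ring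
      linarith
    rw [e4, ← Real.exp_nat_mul]
    calc Real.exp ((N : ℝ) * (-(Real.log 2 / 2))) ≤ Real.exp (Real.log 2 + -(1 / 200 * I)) := by
          apply Real.exp_le_exp.2
          have h10 : (N : ℝ) * (-(Real.log 2 / 2)) ≤ (I - 63) / 57 * (-(Real.log 2 / 2)) := by
            apply mul_le_mul_of_nonpos_right h8
            linarith
          nlinarith
      _ = 2 * Real.exp (-(1 / 200 * I)) := by
          rw [Real.exp_add, Real.exp_log (by norm_num)]

/-- the conditions on a walk given by blocks -/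
def CV (B : List (ℤ × ℤ × ℤ)) (a b : ℕ) (H : ℤ) (γ : ℕ → V) : Prop :=
  Even ((γ a).1 + (γ a).2) ∧ BV (lev (γ a)) B H ∧
    (∀ i, a < i → i ≤ b → lev (γ a) + 1 ≤ lev (γ i)) ∧
    (∀ i, a ≤ i → i < b → lev (γ i) ≤ H) ∧ lev (γ b) = H + 1 ∧
    ∀ i, a ≤ i → i ≤ b → Resp B (γ i)

theorem mv_of_cv {m : ℕ} {v : V} {B : List (ℤ × ℤ × ℤ)} {a b : ℕ} {H : ℤ} (hab : a < b)
    (hb : b ≤ m) {l' : List V} (h : IsSW v m l') (hc : CV B a b H (gt l')) :
    MV (gt l' a) H B ((l'.drop a).take (b - a + 1)) := by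
  obtain ⟨h1, h2, h3, h4⟩ := h
  obtain ⟨c1, c2, c3, c4, c5, c6⟩ := hc
  set l := (l'.drop a).take (b - a + 1) with hl
  have hlen : l.length = b - a + 1 := by
    rw [hl, List.length_take, List.length_drop, h1]; omega
  have key : ∀ i (hi : i < l.length), l[i] = gt l' (a + i) := by
    intro i hi
    rw [Pool.Agent.Y981.QB.gt_eq l' (a + i) (by omega)]
    simp [hl]
  refine ⟨?_, (h3.drop _).take _, ?_, by omega, ?_, ?_, ?_, ?_⟩
  · have h0 : 0 < l.length := by omega
    have := key 0 h0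
    rw [List.head?_eq_getElem?, List.getElem?_eq_getElem h0, this]
    rfl
  · exact (h4.sublist (List.drop_sublist _ _)).sublist (List.take_sublist _ _)
  · intro x hx
    obtain ⟨i, hi, rfl⟩ := List.getElem_of_mem hx
    rw [List.length_tail] at hi
    have : l.tail[i] = l[i + 1]'(by omega) := by simp
    rw [this, key (i + 1) (by omega)]
    exact c3 _ (by omega) (by omega)
  · intro x hx
    obtain ⟨i, hi, rfl⟩ := List.getElem_of_mem hx
    rw [List.length_dropLast] at hi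
    have : l.dropLast[i] = l[i]'(by omega) := by simp
    rw [this, key i (by omega)]
    exact c4 _ (by omega) (by omega)
  · intro x hx
    rw [List.getLast?_eq_getElem?, List.getElem?_eq_getElem (by omega)] at hx
    simp only [Option.mem_def, Option.some.injEq] at hx
    rw [← hx, key _ (by omega)]
    have : a + (l.length - 1) = b := by omega
    rw [this]
    exact c5
  · intro p hp x hx
    obtain ⟨i, hi, rfl⟩ := List.getElem_of_mem hx
    rw [key i hi]
    exact c6 _ (by omega) (by omega) p hp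

theorem one_cv (K0 : ℝ) (hK0 : 0 ≤ K0)
    (hCN : ∀ (v : V) (n : ℕ) (F : Finset (List V)),
      (∀ l ∈ F, IsSW v n l) → (F.card : ℝ) ≤ mu0 ^ n * Real.exp (K0 * Real.log (n + 2) ^ 2))
    (m : ℕ) (v : V) (B : List (ℤ × ℤ × ℤ)) (a b : ℕ) (H : ℤ) (hab : a < b) (hb : b ≤ m)
    (G : Finset (List V)) (hG : ∀ l ∈ G, IsSW v m l ∧ CV B a b H (gt l)) :
    (G.card : ℝ) ≤ mu0 ^ m * Real.exp (2 * K0 * Real.log (m + 2) ^ 2) *
      (Real.sqrt 2)⁻¹ ^ B.length := by
  have hmu := Pool.Agent.Y981.QB.mu0_pos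
  have hlog : ∀ k : ℕ, k ≤ m → Real.exp (K0 * Real.log (k + 2) ^ 2) ≤
      Real.exp (K0 * Real.log (m + 2) ^ 2) := by
    intro k hk
    have h0 : (0 : ℝ) ≤ Real.log (k + 2) := Real.log_nonneg (by
      have : (0 : ℝ) ≤ k := Nat.cast_nonneg _
      linarith)
    have h1 : Real.log (k + 2) ≤ Real.log (m + 2) := Real.log_le_log (by positivity) (by
      have : (k : ℝ) ≤ m := by exact_mod_cast hk
      linarith)
    exact Real.exp_le_exp.mpr (mul_le_mul_of_nonneg_left (pow_le_pow_left₀ h0 h1 2) hK0)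
  have h := Pool.Agent.Y908.QB.split m a b (mu0 ^ a * Real.exp (K0 * Real.log (m + 2) ^ 2))
    (mu0 ^ (b - a) * (Real.sqrt 2)⁻¹ ^ B.length)
    (mu0 ^ (m - b) * Real.exp (K0 * Real.log (m + 2) ^ 2)) G hab.le hb (by positivity)
    (by positivity) (by positivity) (fun l hl => (hG l hl).1.1) ?_ ?_ ?_
  · refine h.trans (le_of_eq ?_)
    have e1 : mu0 ^ m = mu0 ^ a * mu0 ^ (b - a) * mu0 ^ (m - b) := by
      rw [← pow_add, ← pow_add]
      congr 1
      omega
    have e2 : Real.exp (2 * K0 * Real.log (m + 2) ^ 2) =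
        Real.exp (K0 * Real.log (m + 2) ^ 2) * Real.exp (K0 * Real.log (m + 2) ^ 2) := by
      rw [← Real.exp_add]
      congr 1
      ring
    rw [e1, e2]
    ring
  · intro G' hG'
    have := hCN v a G' (by
      intro l hl
      obtain ⟨l', hl', rfl⟩ := hG' l hl
      exact Pool.Agent.Y981.QB.isSW_take (hG l' hl').1 (by omega))
    exact this.trans (mul_le_mul_of_nonneg_left (hlog a (by omega)) (by positivity))
  · intro u G' hG'
    rcases Finset.eq_empty_or_nonempty G' with h0 | ⟨l0, hl0⟩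
    · rw [h0, Finset.card_empty, Nat.cast_zero]
      positivity
    · have hmid : ∀ l ∈ G', MV u H B l ∧ l.length = b - a + 1 ∧
          Even (u.1 + u.2) ∧ BV (lev u) B H := by
        intro l hl
        obtain ⟨hu, l', hl', he⟩ := hG' l hl
        have hg := hG l' hl'
        have h1 := mv_of_cv hab hb hg.1 hg.2
        have h2 : gt l' a = u := by
          have h3 := h1.1
          rw [← he, hu] at h3
          exact (Option.some.inj h3).symm
        rw [← he, h2] at h1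
        refine ⟨h1, ?_, ?_, ?_⟩
        · rw [he, List.length_take, List.length_drop, hg.1.1]; omega
        · rw [← h2]; exact hg.2.1
        · rw [← h2]; exact hg.2.2.1
      have h1 := winV u H B G' (hmid l0 hl0).2.2.1 (hmid l0 hl0).2.2.2 (fun l hl => (hmid l hl).1)
      have h2 : ∑ l ∈ G', (mu0⁻¹) ^ (l.length - 1) = G'.card * (mu0⁻¹) ^ (b - a) := by
        rw [Finset.sum_congr rfl (g := fun _ => (mu0⁻¹) ^ (b - a)) (by
          intro l hl
          rw [(hmid l hl).2.1]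
          rfl)]
        rw [Finset.sum_const, nsmul_eq_mul]
      rw [h2] at h1
      have h3 : (G'.card : ℝ) = mu0 ^ (b - a) * (G'.card * (mu0⁻¹) ^ (b - a)) := by
        rw [inv_pow]
        field_simp
      rw [h3]
      exact mul_le_mul_of_nonneg_left h1 (by positivity)
  · intro u G' hG'
    have := hCN u (m - b) G' (by
      intro l hl
      obtain ⟨hu, l', hl', rfl⟩ := hG' l hl
      exact Pool.Agent.Y981.QB.isSW_drop (hG l' hl').1 hb hu)
    exact this.trans (mul_le_mul_of_nonneg_left (hlog (m - b) (by omega)) (by positivity))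

/-- the walk passes the channel with profile `f`, axis `e` through `o`, up to height `h` -/
def Pass (f : ℝ → ℝ) (e : ℂ) (o : V) (hg : V → ℝ) (h : ℝ) (m : ℕ) (γ : ℕ → V) : Prop :=
  ∃ i j, i ≤ j ∧ j ≤ m ∧ hg (γ i) ≤ 0 ∧ h ≤ hg (γ j) ∧
    ∀ k, i ≤ k → k ≤ j → 0 < hg (γ k) → hg (γ k) < h → |cy e o (γ k)| ≤ f (cx e o (γ k))

theorem pass_sector {f : ℝ → ℝ} (hf1 : ∀ x, 1 ≤ f x)
    (hfL : ∀ x y, |f x - f y| ≤ |x - y| / 100) {e : ℂ} (he : e.re ^ 2 + e.im ^ 2 = 1)
    (hs : Sector e) (K0 : ℝ) (hK0 : 0 ≤ K0)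
    (hCN : ∀ (v : V) (n : ℕ) (F : Finset (List V)),
      (∀ l ∈ F, IsSW v n l) → (F.card : ℝ) ≤ mu0 ^ n * Real.exp (K0 * Real.log (n + 2) ^ 2))
    (o : V) (h : ℝ) (hh : 6 ≤ h) (m : ℕ) (v : V) (F : Finset (List V))
    (hF : ∀ l ∈ F, IsSW v m l ∧ Pass f e o (hgt o) h m (gt l)) :
    (F.card : ℝ) ≤ ((m : ℝ) + 1) ^ 2 * (mu0 ^ m * Real.exp (2 * K0 * Real.log (m + 2) ^ 2) *
      (2 * Real.exp (-(1 / 200 * ∫ x in (0 : ℝ)..h, 1 / f x)))) := by
  classical
  obtain ⟨L, hL⟩ := exists_level (lev o) h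
  obtain ⟨H, hH1, hH2⟩ : ∃ H : ℤ, Even H ∧ (L = H + 1 ∨ L = H + 2) := by
    by_cases hLe : Even L
    · exact ⟨L - 2, by rw [Int.even_iff] at *; omega, Or.inr (by omega)⟩
    · refine ⟨L - 1, ?_, Or.inl (by omega)⟩
      rw [Int.even_iff] at *
      omega
  obtain ⟨A, hAe, hA1, hA2⟩ : ∃ A : ℤ, Even A ∧ lev o ≤ A ∧ A ≤ lev o + 1 := by
    by_cases ho : Even (lev o)
    · exact ⟨lev o, ho, le_rfl, by omega⟩
    · exact ⟨lev o + 1, by rw [Int.even_iff] at *; omega, by omega, le_rfl⟩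
  have hLh : h ≤ hl (lev o) L := (hL L).2 le_rfl
  have hHa : 4 / 3 * (h - 2) ≤ ((H - lev o : ℤ) : ℝ) := by
    have h1 := hl_bound (lev o) L
    have h2 : ((L - lev o : ℤ) : ℝ) ≤ ((H - lev o : ℤ) : ℝ) + 2 := by
      have : L - lev o ≤ H - lev o + 2 := by omega
      exact_mod_cast this
    linarith
  obtain ⟨B, hB1, hB2, hB3, hB4⟩ := blocks_exist hf1 hfL he hs o h hh A H hA1 hA2 hAe hH1 hHa
  have hAH := bv_le B A H hB1
  have hub := Pool.Agent.Y981.QB.union_bound F (Finset.range (m + 1) ×ˢ Finset.range (m + 1))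
    (fun l c => c.1 < c.2 ∧ CV B c.1 c.2 H (gt l))
    (mu0 ^ m * Real.exp (2 * K0 * Real.log (m + 2) ^ 2) *
      (2 * Real.exp (-(1 / 200 * ∫ x in (0 : ℝ)..h, 1 / f x)))) ?_ ?_
  · refine hub.trans (le_of_eq ?_)
    rw [Finset.card_product, Finset.card_range]
    push_cast
    ring
  · intro l hlF
    obtain ⟨h1, i, j, hij, hj, hi1, hj1, hch⟩ := hF l hlF
    rw [hgt_eq] at hi1 hj1
    have hl0 : hl (lev o) (lev o) = 0 := by
      unfold hl
      simp
    have hli : lev (gt l i) ≤ lev o := by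
      by_contra hc
      have h2 := hl_lt (a := lev o) (show lev o < lev (gt l i) by omega)
      have h3 : hl (lev o) (lev o) = 0 := by
        unfold hl
        simp
      linarith
    have hlj : L ≤ lev (gt l j) := (hL _).1 hj1
    obtain ⟨a, b, a1, a2, a3, a4, a5, a6, a7⟩ := crossing2 (fun k => lev (gt l k)) i j hij
      (fun k _ hk2 => by
        have h1' := Pool.Agent.Y981.QB.lev_adj
          (Pool.Agent.Y981.QB.gt_adj h1.2.2.1 k (by rw [h1.1]; omega))
        rw [abs_le] at h1'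
        omega) A (H + 1) (by omega) (by
          show lev (gt l i) ≤ A
          omega) (by
          show H + 1 ≤ lev (gt l j)
          omega)
    refine ⟨(a, b), ?_, a2, ?_, ?_, ?_, ?_, a5, ?_⟩
    · rw [Finset.mem_product, Finset.mem_range, Finset.mem_range]
      simp only
      omega
    · have h2 : lev (gt l a) = A := a4
      show Even ((gt l a).1 + (gt l a).2)
      unfold lev at h2
      rw [Int.even_iff] at hAe ⊢
      omega
    · have h2 : lev (gt l a) = A := a4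
      rw [h2]
      exact hB1
    · intro k hk1 hk2
      have h2 : lev (gt l a) = A := a4
      show lev (gt l a) + 1 ≤ lev (gt l k)
      rw [h2]
      exact a6 k hk1 hk2
    · intro k hk1 hk2
      have : lev (gt l k) < H + 1 := a7 k hk1 hk2
      omega
    · intro k hk1' hk2'
      have hk1 : a ≤ k := hk1'
      have hk2 : k ≤ b := hk2'
      apply hB3
      intro h2 h3
      apply hch k (le_trans a1 hk1) (le_trans hk2 a3)
      · rw [hgt_eq]
        have h4 := hl_lt (a := lev o) (show lev o < lev (gt l k) by omega)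
        have h5 : hl (lev o) (lev o) = 0 := by
          unfold hl
          simp
        linarith
      · rw [hgt_eq]
        by_contra hc
        push Not at hc
        have := (hL _).1 hc
        omega
  · intro c hc G hG hR
    rw [Finset.mem_product, Finset.mem_range, Finset.mem_range] at hc
    rcases Finset.eq_empty_or_nonempty G with h0 | ⟨l0, hl0⟩
    · have := Pool.Agent.Y981.QB.mu0_pos
      rw [h0, Finset.card_empty, Nat.cast_zero]
      positivity
    · have h0 := hR l0 hl0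
      have hmu := Pool.Agent.Y981.QB.mu0_pos
      refine (one_cv K0 hK0 hCN m v B c.1 c.2 H h0.1 (by omega) G
        (fun l hl => ⟨(hF l (hG hl)).1, (hR l hl).2⟩)).trans ?_
      exact mul_le_mul_of_nonneg_left hB4 (by positivity)

/-- **The estimate for walks which pass the channel**, all axes. -/
theorem pass_count : ∃ K : ℝ, 0 ≤ K ∧ ∀ (f : ℝ → ℝ), (∀ x, 1 ≤ f x) →
    (∀ x y, |f x - f y| ≤ |x - y| / 100) → ∀ (v₀ w₀ : V), Adj v₀ w₀ → ∀ e : ℂ,
    e.re ^ 2 + e.im ^ 2 = 1 →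
    Real.sqrt 3 / 2 ≤ (pos w₀ - pos v₀).re * e.re + (pos w₀ - pos v₀).im * e.im →
    ∀ (o : V) (h : ℝ), 6 ≤ h → ∀ (m : ℕ) (v : V) (F : Finset (List V)),
    (∀ l ∈ F, IsSW v m l ∧ Pass f e o (fun w => (pos w - pos o).re * (pos w₀ - pos v₀).re +
        (pos w - pos o).im * (pos w₀ - pos v₀).im) h m (gt l)) →
    (F.card : ℝ) ≤ mu0 ^ m * Real.exp (K * Real.log (m + 2) ^ 2 -
      1 / 200 * ∫ x in (0 : ℝ)..h, 1 / f x) := by
  classical
  obtain ⟨K0, hK0, hCN⟩ := Pool.Agent.Y67.QB.cn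
  refine ⟨2 * K0 + 6, by linarith, ?_⟩
  intro f hf1 hfL v₀ w₀ hu e he hue o h hh m v F hF
  have hmu := Pool.Agent.Y981.QB.mu0_pos
  obtain ⟨T, A, hS, hA, hAe, hsec⟩ := exists_sym hu he hue
  have hcx : ∀ v, cx (A e) (T o) (T v) = cx e o v := by
    intro v
    unfold cx
    rw [hS.lin, hS.dot]
  have hcy : ∀ v, |cy (A e) (T o) (T v)| = |cy e o v| := by
    intro v
    unfold cy
    rw [hS.lin, hS.cross]
  have hhgt : ∀ v, hgt (T o) (T v) = (pos v - pos o).re * (pos w₀ - pos v₀).re +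
        (pos v - pos o).im * (pos w₀ - pos v₀).im := by
    intro v
    rw [← hS.dot, ← hS.lin, hA]
    unfold hgt u0
    simp only
    ring
  have hinj : Function.Injective (List.map T) := List.map_injective_iff.mpr hS.inj
  have key := pass_sector hf1 hfL hAe hsec K0 hK0 hCN (T o) h hh m (T v) (F.image (List.map T)) (by
    intro l' hl'
    obtain ⟨l, hl, rfl⟩ := Finset.mem_image.1 hl'
    obtain ⟨h1, i, j, hij, hj, hi1, hj1, hch⟩ := hF l hl
    have hlen := h1.1
    have e : ∀ i' ≤ m, gt (l.map T) i' = T (gt l i') := fun i' hi' =>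
      Pool.Agent.Y981.QB.gt_map T l i' (by omega)
    refine ⟨Pool.Agent.Y981.QB.isSW_map T hS.inj hS.adj h1, i, j, hij, hj, ?_, ?_, ?_⟩
    · rw [e i (by omega), hhgt]
      exact hi1
    · rw [e j hj, hhgt]
      exact hj1
    · intro k hk1 hk2
      rw [e k (by omega), hhgt, hcy, hcx]
      exact hch k hk1 hk2)
  rw [Finset.card_image_of_injective _ hinj] at key
  refine key.trans ?_
  obtain ⟨I, hI⟩ : ∃ I, I = ∫ x in (0 : ℝ)..h, 1 / f x := ⟨_, rfl⟩
  obtain ⟨x, hx⟩ : ∃ x, x = Real.log ((m : ℝ) + 2) := ⟨_, rfl⟩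
  rw [← hI, ← hx]
  have hm0 : (0 : ℝ) ≤ m := Nat.cast_nonneg m
  have hexp : Real.exp x = (m : ℝ) + 2 := by
    rw [hx, Real.exp_log (by linarith)]
  have h2 := Real.log_two_gt_d9
  have hL2 : Real.log 2 ≤ x := by
    rw [hx]
    exact Real.log_le_log (by norm_num) (by linarith)
  have hxx : 3 * x ≤ 6 * x ^ 2 := by nlinarith
  have e1 : ((m : ℝ) + 1) ^ 2 * 2 ≤ Real.exp (3 * x) := by
    have e2 : Real.exp (3 * x) = ((m : ℝ) + 2) ^ 3 := by
      rw [← hexp, ← Real.exp_nat_mul]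
      congr 1
    rw [e2]
    nlinarith [mul_nonneg hm0 hm0, mul_nonneg (mul_nonneg hm0 hm0) hm0]
  calc ((m : ℝ) + 1) ^ 2 * (mu0 ^ m * Real.exp (2 * K0 * x ^ 2) *
      (2 * Real.exp (-(1 / 200 * I)))) =
      ((m : ℝ) + 1) ^ 2 * 2 * (mu0 ^ m * Real.exp (2 * K0 * x ^ 2) * Real.exp (-(1 / 200 * I))) := by
        ring
    _ ≤ Real.exp (3 * x) * (mu0 ^ m * Real.exp (2 * K0 * x ^ 2) * Real.exp (-(1 / 200 * I))) := by
        gcongr
    _ = mu0 ^ m * Real.exp (3 * x + 2 * K0 * x ^ 2 - 1 / 200 * I) := by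
        rw [show 3 * x + 2 * K0 * x ^ 2 - 1 / 200 * I = 3 * x + (2 * K0 * x ^ 2 +
          -(1 / 200 * I)) by ring, Real.exp_add, Real.exp_add]
        ring
    _ ≤ _ := by
        apply mul_le_mul_of_nonneg_left _ (by positivity)
        apply Real.exp_le_exp.2
        nlinarith

end Run7.h287.ST
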