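import Pool.Agent.Run7.h287.ST.Ahl5

set_option autoImplicit false

/-! Honeycomb lattice: infinite sums of weights, wedges. -/

namespace Run7.h287.ST

open scoped ENNReal
open H978R2.Hex
open Pool.Agent.Y981.QB (lev Sector gt IsSW)

theorem tsum_lists (S : Set (List V)) (Y : ℝ)
    (h : ∀ F : Finset (List V), (∀ l ∈ F, l ∈ S) → ∑ l ∈ F, (mu0⁻¹) ^ (l.length - 1) ≤ Y) :
    ∑' l : S, ENNReal.ofReal (1 / Real.sqrt (2 + Real.sqrt 2)) ^ (l.1.length - 1) ≤
      ENNReal.ofReal Y := by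
  classical
  have hmu := Pool.Agent.Y981.QB.mu0_pos
  rw [ENNReal.tsum_eq_iSup_sum]
  refine iSup_le (fun s => ?_)
  have h1 := h (s.image Subtype.val) (by
    intro l hl
    obtain ⟨l', -, rfl⟩ := Finset.mem_image.1 hl
    exact l'.2)
  rw [Finset.sum_image (fun a _ b _ h => Subtype.val_injective h)] at h1
  have e : ∑ l ∈ s, ENNReal.ofReal (1 / Real.sqrt (2 + Real.sqrt 2)) ^ (l.1.length - 1) =
      ENNReal.ofReal (∑ l ∈ s, (mu0⁻¹) ^ (l.1.length - 1)) := by
    rw [ENNReal.ofReal_sum_of_nonneg (fun l _ => by positivity)]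
    refine Finset.sum_congr rfl fun l _ => ?_
    rw [← ENNReal.ofReal_pow (by positivity), one_div]
    rfl
  rw [e]
  exact ENNReal.ofReal_le_ofReal h1

/-- grouping by the length -/
theorem sum_by_length (M : ℕ) (F : Finset (List V)) (hF : ∀ l ∈ F, l.length ≤ M ∧ 1 ≤ l.length)
    (Y : ℝ) (h : ∀ m, m < M → ∀ G : Finset (List V), (∀ l ∈ G, l ∈ F ∧ l.length = m + 1) →
      (G.card : ℝ) ≤ mu0 ^ m * Y) :
    ∑ l ∈ F, (mu0⁻¹) ^ (l.length - 1) ≤ M * Y := by
  classical
  have hmu := Pool.Agent.Y981.QB.mu0_pos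
  have hmaps : ∀ l ∈ F, l.length - 1 ∈ Finset.range M := by
    intro l hl
    rw [Finset.mem_range]
    have := hF l hl
    omega
  rw [← Finset.sum_fiberwise_of_maps_to hmaps]
  have h1 : ∀ m ∈ Finset.range M, ∑ l ∈ F with l.length - 1 = m, (mu0⁻¹) ^ (l.length - 1) ≤ Y := by
    intro m hm
    rw [Finset.mem_range] at hm
    have h2 := h m hm (F.filter (fun l => l.length - 1 = m)) (by
      intro l hl
      rw [Finset.mem_filter] at hl
      have := hF l hl.1
      exact ⟨hl.1, by omega⟩)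
    have e : ∑ l ∈ F with l.length - 1 = m, (mu0⁻¹) ^ (l.length - 1) =
        ((F.filter (fun l => l.length - 1 = m)).card : ℝ) * (mu0⁻¹) ^ m := by
      rw [← nsmul_eq_mul, ← Finset.sum_const]
      refine Finset.sum_congr rfl fun l hl => ?_
      rw [(Finset.mem_filter.1 hl).2]
    rw [e]
    calc _ ≤ mu0 ^ m * Y * (mu0⁻¹) ^ m := by gcongr
      _ = Y * (mu0 * mu0⁻¹) ^ m := by rw [mul_pow]; ring
      _ = Y := by rw [mul_inv_cancel₀ hmu.ne', one_pow, mul_one]
  refine (Finset.sum_le_sum h1).trans (le_of_eq ?_)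
  rw [Finset.sum_const, Finset.card_range, nsmul_eq_mul]

/-! ### wedges -/

/-- the profile of a wedge -/
theorem wedge_profile {η : ℝ} (hη : 0 < η) (hη1 : η ≤ 1 / 100) :
    (∀ x : ℝ, 1 ≤ max 1 (η * x)) ∧
    ∀ x y : ℝ, |max 1 (η * x) - max 1 (η * y)| ≤ |x - y| / 100 := by
  refine ⟨fun x => le_max_left _ _, fun x y => ?_⟩
  have h1 := abs_max_sub_max_le_abs (η * x) (η * y) 1
  rw [max_comm (η * x) 1, max_comm (η * y) 1] at h1
  refine h1.trans ?_
  rw [← mul_sub, abs_mul, abs_of_pos hη]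
  have := abs_nonneg (x - y)
  nlinarith

/-- the integral for a wedge -/
theorem wedge_integral {η : ℝ} (hη : 0 < η) (hη1 : η ≤ 1 / 100) {h : ℝ} (hh : 1 / η ≤ h) :
    ∫ x in (0 : ℝ)..h, 1 / max 1 (η * x) = (1 + Real.log (η * h)) / η := by
  obtain ⟨p1, p2⟩ := wedge_profile hη hη1
  have hη' : 0 < 1 / η := by positivity
  have hint := inv_int p1 p2
  have e1 := intervalIntegral.integral_add_adjacent_intervals (hint 0 (1 / η)) (hint (1 / η) h)
  rw [← e1]
  have e2 : ∫ x in (0 : ℝ)..(1 / η), 1 / max 1 (η * x) = 1 / η := by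
    have e3 : ∫ x in (0 : ℝ)..(1 / η), 1 / max 1 (η * x) = ∫ _x in (0 : ℝ)..(1 / η), (1 : ℝ) := by
      apply intervalIntegral.integral_congr
      intro x hx
      rw [Set.uIcc_of_le hη'.le] at hx
      have h1 : η * x ≤ 1 := by
        have := mul_le_mul_of_nonneg_left hx.2 hη.le
        rwa [mul_one_div_cancel hη.ne'] at this
      simp only
      rw [max_eq_left h1, div_one]
    rw [e3]
    simp
  have e4 : ∫ x in (1 / η)..h, 1 / max 1 (η * x) = Real.log (η * h) / η := by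
    have e5 : ∫ x in (1 / η)..h, 1 / max 1 (η * x) = ∫ x in (1 / η)..h, η⁻¹ * x⁻¹ := by
      apply intervalIntegral.integral_congr
      intro x hx
      rw [Set.uIcc_of_le hh] at hx
      have hx0 : 0 < x := lt_of_lt_of_le hη' hx.1
      have h1 : 1 ≤ η * x := by
        have := mul_le_mul_of_nonneg_left hx.1 hη.le
        rwa [mul_one_div_cancel hη.ne'] at this
      simp only
      rw [max_eq_right h1, one_div, mul_inv]
    rw [e5, intervalIntegral.integral_const_mul, integral_inv_of_pos hη' (lt_of_lt_of_le hη' hh)]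
    rw [div_div_eq_mul_div, div_one, mul_comm h η, inv_mul_eq_div]
  rw [e2, e4]
  field_simp

/-- the bound for a wedge as a power -/
theorem wedge_power {η : ℝ} (hη : 0 < η) (hη1 : η ≤ 1 / 100) {h : ℝ} (hh : 1 / η ≤ h) :
    Real.exp (-(1 / 200 * ∫ x in (0 : ℝ)..h, 1 / max 1 (η * x))) =
      (Real.exp 1 * η * h) ^ (-(1 / (200 * η))) := by
  rw [wedge_integral hη hη1 hh]
  have hη' : 0 < 1 / η := by positivity
  have hh0 : 0 < h := lt_of_lt_of_le hη' hh
  rw [Real.rpow_def_of_pos (by positivity), mul_assoc, Real.log_mul (Real.exp_pos 1).ne'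
    (by positivity), Real.log_exp]
  congr 1
  field_simp

theorem pos_inj {v p : V} (h1 : (pos v - pos p).re = 0) (h2 : (pos v - pos p).im = 0) : v = p := by
  have h3 : Pool.Agent.Y981.QB.dst v p = 0 := by
    unfold Pool.Agent.Y981.QB.dst
    rw [norm_eq_zero]
    exact Complex.ext (by rw [h1]; rfl) (by rw [h2]; rfl)
  apply Pool.Agent.Y495.QB.N_zero
  have h4 := Pool.Agent.Y495.QB.dst_eq v p
  rw [h3] at h4
  have h5 := Real.sqrt_eq_zero'.1 h4.symm
  have h6 : 0 ≤ Pool.Agent.Y495.QB.N v p := by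
    unfold Pool.Agent.Y495.QB.N
    positivity
  have h7 : ((Pool.Agent.Y495.QB.N v p : ℤ) : ℝ) ≤ 0 := by linarith
  have h8 : Pool.Agent.Y495.QB.N v p ≤ 0 := by exact_mod_cast h7
  omega

/-- a narrow wedge is in the open half-plane -/
theorem wedge_half {η : ℝ} (hη : 0 < η) (hη1 : η ≤ 1 / 100) {e u : ℂ}
    (he : e.re ^ 2 + e.im ^ 2 = 1) (hu1 : u.re ^ 2 + u.im ^ 2 = 1)
    (hue : Real.sqrt 3 / 2 ≤ u.re * e.re + u.im * e.im) {p v : V}
    (hv : |cy e p v| ≤ η * cx e p v) (hne : v ≠ p) :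
    0 < (pos v - pos p).re * u.re + (pos v - pos p).im * u.im := by
  obtain ⟨x, hx⟩ : ∃ x, x = cx e p v := ⟨_, rfl⟩
  obtain ⟨y, hy⟩ : ∃ y, y = cy e p v := ⟨_, rfl⟩
  obtain ⟨X, hX⟩ : ∃ X, X = (pos v - pos p).re := ⟨_, rfl⟩
  obtain ⟨Y, hY⟩ : ∃ Y, Y = (pos v - pos p).im := ⟨_, rfl⟩
  have ex : x = X * e.re + Y * e.im := by rw [hx, hX, hY]; rfl
  have ey : y = Y * e.re - X * e.im := by rw [hy, hX, hY]; rfl
  have eX : X = x * e.re - y * e.im := by
    rw [ex, ey]
    linear_combination (-X) * he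
  have eY : Y = x * e.im + y * e.re := by
    rw [ex, ey]
    linear_combination (-Y) * he
  rw [← hX, ← hY]
  rw [← hx, ← hy] at hv
  obtain ⟨a, ha⟩ : ∃ a, a = u.re * e.re + u.im * e.im := ⟨_, rfl⟩
  obtain ⟨b, hb⟩ : ∃ b, b = u.im * e.re - u.re * e.im := ⟨_, rfl⟩
  rw [← ha] at hue
  have h17 : (1.7 : ℝ) ≤ Real.sqrt 3 := Real.le_sqrt_of_sq_le (by norm_num)
  have hab : a ^ 2 + b ^ 2 = 1 := by
    rw [ha, hb]
    linear_combination (e.re ^ 2 + e.im ^ 2) * hu1 + he
  have hb1 : |b| ≤ 1 := by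
    rw [← sq_le_one_iff_abs_le_one]
    nlinarith [sq_nonneg a]
  have hx0 : 0 ≤ x := by
    have := abs_nonneg y
    by_contra hc
    push Not at hc
    nlinarith
  have hx1 : 0 < x := by
    rcases eq_or_lt_of_le hx0 with h | h
    · exfalso
      apply hne
      rw [← h, mul_zero] at hv
      have hy0 : y = 0 := abs_eq_zero.1 (le_antisymm hv (abs_nonneg _))
      apply pos_inj
      · rw [← hX, eX, ← h, hy0]
        ring
      · rw [← hY, eY, ← h, hy0]
        ring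
    · exact h
  have e1 : X * u.re + Y * u.im = x * a + y * b := by
    rw [eX, eY, ha, hb]
    ring
  rw [e1]
  have h2 : |y * b| ≤ η * x := by
    rw [abs_mul]
    calc |y| * |b| ≤ |y| * 1 := mul_le_mul_of_nonneg_left hb1 (abs_nonneg _)
      _ ≤ η * x := by rw [mul_one]; exact hv
  have h3 := (abs_le.1 h2).1
  have h4 : η * x ≤ 1 / 100 * x := mul_le_mul_of_nonneg_right hη1 hx0
  have h5 : 1.7 / 2 * x ≤ x * a := by
    rw [mul_comm x a]
    apply mul_le_mul_of_nonneg_right _ hx0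
    linarith
  nlinarith

end Run7.h287.ST
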