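import Pool.Agent.Y655.QB.Win

/-!
# Critical mass of the paths which respect tube blocks of different sizes

This is the starting file `Pool/Agent/Y655/QB/Win.lean` with a size `p.2.2` for every block `p`.
-/

set_option autoImplicit false

namespace Run7.h287.ST

open H978R2.Hex Pool.Agent.W818.TD
open Pool.Agent.Y981.QB (lev)
open Pool.Agent.Y655.QB (start adj_shift)

/-- The positions `p = (d, y, g)` of the blocks (levels `d + 1, …, d + 2 g`, rows `y, …, y + g - 1`)
are even, and the blocks lie above each other between the levels `A` and `H`. -/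
def BV : ℤ → List (ℤ × ℤ × ℤ) → ℤ → Prop
  | A, [], H => A + 2 ≤ H ∧ Even H
  | A, p :: B, H => A + 2 ≤ p.1 ∧ Even p.1 ∧ 1 ≤ p.2.2 ∧ BV (p.1 + 2 * p.2.2) B H

/-- `l` is a self-avoiding path which starts at `u`, is above the level of `u` afterwards, ends at
its first vertex of level `H + 1`, and respects the blocks `B`. -/
def MV (u : V) (H : ℤ) (B : List (ℤ × ℤ × ℤ)) (l : List V) : Prop :=
  l.head? = some u ∧ l.IsChain Adj ∧ l.Nodup ∧ 2 ≤ l.length ∧
  (∀ v ∈ l.tail, lev u + 1 ≤ lev v) ∧ (∀ v ∈ l.dropLast, lev v ≤ H) ∧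
  (∀ v ∈ l.getLast?, lev v = H + 1) ∧
  ∀ p ∈ B, ∀ v ∈ l, p.1 + 1 ≤ lev v → lev v ≤ p.1 + 2 * p.2.2 →
    p.2.1 ≤ v.2 ∧ v.2 ≤ p.2.1 + p.2.2 - 1

/-! ### the domains -/

/-- after a full strip the domain is a tube, with any opening -/
theorem tube_upV {D : V → Prop} {d y0 g T R y' g' : ℤ} (hT : Tube D d y0 g) (hTe : T % 2 = 0)
    (hdT : d + 1 ≤ T) (h1 : -R ≤ y0) (h2 : y0 + g - 1 ≤ R)
    (hsharp : ∀ w, D w → w.1 - w.2 = d → y0 ≤ w.2 ∧ w.2 ≤ y0 + g - 1)
    (hg' : 1 ≤ g') (h1' : -R ≤ y') (h2' : y' + g' - 1 ≤ R) :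
    Tube (fun v => D v ∨ Up d T R v) T y' g' := by
  have hg := hT.gpos
  have hd := hT.dpos
  have hev := hT.ev
  have G := good_up hT hTe hdT h1 h2 hsharp
  refine ⟨?_, ?_, Or.inl hT.base, hTe, hg', ?_, ?_⟩
  · rintro v (h | h)
    · exact hT.hp v h
    · unfold Up at h; omega
  · rintro v (h | h)
    · have := hT.le v h; omega
    · unfold Up at h; omega
  · intro v h3 h4 h5
    right
    unfold Up
    omega
  · intro v z hv ha hz hz1 _
    exact G.fr v z hv ha hz hz1

/-- the domain: strips and blocks in turn -/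
def fd (R : ℤ) : List (ℤ × ℤ × ℤ) → ℤ → (V → Prop) → ℤ → V → Prop
  | [], A, D, H => fun v => D v ∨ Up A H R v
  | p :: B, A, D, H =>
    fd R B (p.1 + 2 * p.2.2) (fun v => (D v ∨ Up A p.1 R v) ∨ pp p.1 p.2.1 p.2.2 v) H

theorem fd_sub {R H : ℤ} : ∀ (B : List (ℤ × ℤ × ℤ)) (A : ℤ) (D : V → Prop) (v : V), D v →
    fd R B A D H v
  | [], _, _, _, h => Or.inl h
  | _ :: B, _, _, v, h => fd_sub B _ _ v (Or.inl (Or.inl h))

/-- the levels of the domain -/
theorem fd_le {R H : ℤ} : ∀ (B : List (ℤ × ℤ × ℤ)) (A : ℤ) (D : V → Prop),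
    BV A B H → (∀ v, D v → v.1 - v.2 ≤ A) → ∀ v, fd R B A D H v → v.1 - v.2 ≤ H
  | [], A, D, hB, hD, v, h => by
    unfold BV at hB
    rcases h with h | h
    · have := hD v h
      omega
    · unfold Up at h
      omega
  | p :: B, A, D, hB, hD, v, h => by
    unfold BV at hB
    refine fd_le B (p.1 + 2 * p.2.2) _ hB.2.2.2 ?_ v h
    rintro w ((h | h) | h)
    · have := hD w h
      omega
    · unfold Up at h
      omega
    · unfold pp at h
      omega

/-- the vertices which respect the blocks are in the domain -/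
theorem fd_mem {R H : ℤ} : ∀ (B : List (ℤ × ℤ × ℤ)) (A : ℤ) (D : V → Prop) (v : V),
    BV A B H → (v.1 - v.2 ≤ A → D v) → v.1 - v.2 ≤ H → -R ≤ v.2 → v.2 ≤ R →
    (∀ p ∈ B, p.1 + 1 ≤ v.1 - v.2 → v.1 - v.2 ≤ p.1 + 2 * p.2.2 →
      p.2.1 ≤ v.2 ∧ v.2 ≤ p.2.1 + p.2.2 - 1) →
    fd R B A D H v
  | [], A, D, v, _, hD, h1, h2, h3, _ => by
    by_cases h : v.1 - v.2 ≤ A
    · exact Or.inl (hD h)
    · right
      unfold Up
      omega
  | p :: B, A, D, v, hB, hD, h1, h2, h3, h4 => by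
    unfold BV at hB
    refine fd_mem B (p.1 + 2 * p.2.2) _ v hB.2.2.2 (fun h5 => ?_) h1 h2 h3
      (fun q hq => h4 q (List.mem_cons_of_mem _ hq))
    by_cases h6 : v.1 - v.2 ≤ A
    · exact Or.inl (Or.inl (hD h6))
    · by_cases h7 : v.1 - v.2 ≤ p.1
      · left; right
        unfold Up
        omega
      · right
        have := h4 p List.mem_cons_self (by omega) h5
        unfold pp
        omega

/-- the mass of the walks which cross all strips and blocks -/
theorem mass_le {R H : ℤ} {n : ℕ} (S : Finset V) (hn : S.card ≤ n) :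
    ∀ (B : List (ℤ × ℤ × ℤ)) (A : ℤ) (D : V → Prop) (c : ℝ), BV A B H →
    (∀ p ∈ B, -R ≤ p.2.1 ∧ p.2.1 + p.2.2 - 1 ≤ R) →
    (∀ T, A + 2 ≤ T → T % 2 = 0 →
      (∀ y' g', 1 ≤ g' → -R ≤ y' → y' + g' - 1 ≤ R → Tube (fun v => D v ∨ Up A T R v) T y' g') ∧
      ((∀ v, D v ∨ Up A T R v → v ∈ S) →
        mf (fun v => D v ∨ Up A T R v) n (fun z => z.1 - z.2 = T + 1) ≤ c)) →
    (∀ v, fd R B A D H v → v ∈ S) →
    mf (fd R B A D H) n (fun z => z.1 - z.2 = H + 1) ≤
      c * Real.sin (2 * (Real.pi / 8)) ^ B.length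
  | [], A, D, c, hB, _, hP, hS => by
    unfold BV at hB
    have := (hP H hB.1 (Int.even_iff.1 hB.2)).2 hS
    simpa [fd] using this
  | p :: B, A, D, c, hB, hR, hP, hS => by
    unfold BV at hB
    obtain ⟨h1, h2, h2', h3⟩ := hB
    have hpR := hR p List.mem_cons_self
    have hp1 := hP p.1 h1 (Int.even_iff.1 h2)
    have T1 := hp1.1 p.2.1 p.2.2 h2' hpR.1 hpR.2
    have T2 := tube_pp T1
    have hS2 : ∀ v, (D v ∨ Up A p.1 R v) ∨ pp p.1 p.2.1 p.2.2 v → v ∈ S := fun v hv =>
      hS v (fd_sub B _ _ v hv)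
    have m1 := hp1.2 (fun v hv => hS2 v (Or.inl hv))
    have m2 := step_pp T1 S hS2 n hn
    have m3 : cm (fun v => D v ∨ Up A p.1 R v) p.1 p.2.1 p.2.2 n ≤ c := by
      refine le_trans ?_ m1
      unfold cm mf
      apply ms_mono
      intro l hl
      rw [mem_lf] at hl ⊢
      exact ⟨hl.1, hl.2.1⟩
    have hsharp : ∀ w, (D w ∨ Up A p.1 R w) ∨ pp p.1 p.2.1 p.2.2 w →
        w.1 - w.2 = p.1 + 2 * p.2.2 → p.2.1 ≤ w.2 ∧ w.2 ≤ p.2.1 + p.2.2 - 1 := by
      rintro w (hw | hw) e
      · have := T1.le w hw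
        omega
      · unfold pp at hw
        omega
    have hs := sin2_pos
    have := mass_le S hn B (p.1 + 2 * p.2.2) (fun v => (D v ∨ Up A p.1 R v) ∨ pp p.1 p.2.1 p.2.2 v)
      (Real.sin (2 * (Real.pi / 8)) * c) h3 (fun q hq => hR q (List.mem_cons_of_mem _ hq))
      (fun T hT hTe => ⟨fun y' g' hg' hy1 hy2 =>
        tube_upV T2 hTe (by omega) hpR.1 hpR.2 hsharp hg' hy1 hy2,
        fun hST => (step_up T2 hTe (by omega) hpR.1 hpR.2 hsharp S hST n hn).trans
          (m2.trans (mul_le_mul_of_nonneg_left m3 hs.le))⟩) hS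
    rw [List.length_cons, pow_succ]
    refine this.trans (le_of_eq ?_)
    ring

/-! ### translation -/

theorem bv_shift {a : ℤ} (b : ℤ) (ha : Even a) : ∀ (B : List (ℤ × ℤ × ℤ)) (A H : ℤ), BV A B H →
    BV (A - a) (B.map fun p => (p.1 - a, p.2.1 - b, p.2.2)) (H - a)
  | [], A, H, h => by
    unfold BV at h
    rw [List.map_nil]
    unfold BV
    exact ⟨by omega, h.2.sub ha⟩
  | p :: B, A, H, h => by
    unfold BV at h
    rw [List.map_cons]
    unfold BV
    refine ⟨by simp only; omega, h.2.1.sub ha, h.2.2.1, ?_⟩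
    have := bv_shift b ha B _ H h.2.2.2
    have e : p.1 - a + 2 * p.2.2 = p.1 + 2 * p.2.2 - a := by ring
    simp only
    rw [e]
    exact this

theorem exists_rows : ∀ B : List (ℤ × ℤ × ℤ), ∃ R : ℤ, ∀ p ∈ B,
    -R ≤ p.2.1 ∧ p.2.1 + p.2.2 - 1 ≤ R
  | [] => ⟨0, by simp⟩
  | p :: B => by
    obtain ⟨R, hR⟩ := exists_rows B
    refine ⟨max R (max (-p.2.1) (p.2.1 + p.2.2 - 1)), ?_⟩
    intro q hq
    rcases List.mem_cons.1 hq with rfl | hq
    · omega
    · have := hR q hq
      omega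

theorem mv_shift {u : V} {H : ℤ} {B : List (ℤ × ℤ × ℤ)} {l : List V} (hu : Even (u.1 + u.2))
    (h : MV u H B l) :
    MV (0, 0) (H - lev u) (B.map fun p => (p.1 - lev u, p.2.1 - u.2, p.2.2))
      (l.map fun v => v - u) := by
  unfold MV at h ⊢
  obtain ⟨h1, h2, h3, h4, h5, h6, h7, h8⟩ := h
  have hl : ∀ v : V, lev (v - u) = lev v - lev u := by
    intro v
    unfold lev
    simp only [Prod.fst_sub, Prod.snd_sub]
    ring
  have h0 : lev ((0, 0) : V) = 0 := rfl
  refine ⟨?_, ?_, ?_, by rw [List.length_map]; exact h4, ?_, ?_, ?_, ?_⟩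
  · rw [List.head?_map, h1, Option.map_some, sub_self]
    rfl
  · rw [List.isChain_map]
    exact h2.imp fun _ _ hab => adj_shift hu hab
  · exact h3.map (sub_left_injective)
  · intro v hv
    rw [← List.map_tail, List.mem_map] at hv
    obtain ⟨w, hw, rfl⟩ := hv
    have := h5 w hw
    rw [hl, h0]
    omega
  · intro v hv
    rw [← List.map_dropLast, List.mem_map] at hv
    obtain ⟨w, hw, rfl⟩ := hv
    have := h6 w hw
    rw [hl]
    omega
  · intro v hv
    rw [List.getLast?_map] at hv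
    simp only [Option.mem_def, Option.map_eq_some_iff] at hv
    obtain ⟨w, hw, rfl⟩ := hv
    have := h7 w hw
    rw [hl]
    omega
  · intro p hp v hv
    rw [List.mem_map] at hp hv
    obtain ⟨q, hq, rfl⟩ := hp
    obtain ⟨w, hw, rfl⟩ := hv
    have := h8 q hq w hw
    rw [hl]
    simp only [Prod.snd_sub]
    omega

/-! ### the theorem -/

theorem fin_fd {R H : ℤ} : ∀ (B : List (ℤ × ℤ × ℤ)) (A : ℤ) (D : V → Prop), {v | D v}.Finite →
    {v | fd R B A D H v}.Finite
  | [], A, _, h => h.union (fin_Up A H R)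
  | p :: B, A, _, h =>
    fin_fd B _ _ ((h.union (fin_Up A p.1 R)).union (fin_pp p.1 p.2.1 p.2.2))

/-- the reversed path -/
theorem rev_form {H : ℤ} {B : List (ℤ × ℤ × ℤ)} {m : List V} (h : MV (0, 0) H B m) :
    ∃ M, m.reverse = M ++ [(1, 0), (0, 0)] := by
  unfold MV at h
  obtain ⟨h1, h2, -, h4, h5, -⟩ := h
  match m, h1, h2, h4, h5 with
  | [], h1, _, _, _ => simp at h1
  | [_], _, _, h4, _ => simp at h4
  | v :: w :: t, h1, h2, _, h5 =>
    simp only [List.head?_cons, Option.some.injEq] at h1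
    subst h1
    have ha := (List.isChain_cons_cons.1 h2).1
    have hw := h5 w (by simp)
    have h0 : lev ((0, 0) : V) = 0 := rfl
    rw [h0] at hw
    unfold lev at hw
    rw [adj_iff] at ha
    simp only at ha
    have e : w = (1, 0) := by
      refine Prod.ext ?_ ?_
      · simp only
        omega
      · simp only
        omega
    subst e
    exact ⟨t.reverse, by simp⟩

theorem rev_val {H : ℤ} {B : List (ℤ × ℤ × ℤ)} {m : List V} (h : MV (0, 0) H B m)
    {Om : V → Prop} (hOm : ∀ v ∈ m, 1 ≤ v.1 - v.2 → v.1 - v.2 ≤ H → Om v) :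
    Val Om m.reverse := by
  obtain ⟨M, hM⟩ := rev_form h
  unfold MV at h
  obtain ⟨-, h2, h3, -, h5, h6, -, -⟩ := h
  refine Val_of (List.isChain_reverse.2 ?_) (List.nodup_reverse.2 h3) ?_ ⟨M, hM⟩
  · exact h2
  · intro v hv
    rw [List.tail_reverse, List.dropLast_reverse, List.mem_reverse] at hv
    have hd : v ∈ m.dropLast := List.mem_of_mem_tail hv
    have ht : v ∈ m.tail := by
      have e : m.dropLast.tail = m.tail.dropLast := by
        cases m with
        | nil => rfl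
        | cons a m => cases m <;> simp
      rw [e] at hv
      exact List.mem_of_mem_dropLast hv
    have a1 := h5 v ht
    have a2 := h6 v hd
    have h0 : lev ((0, 0) : V) = 0 := rfl
    rw [h0] at a1
    unfold lev at a1 a2
    exact hOm v (List.mem_of_mem_dropLast hd) (by omega) (by omega)

theorem win0 (H : ℤ) (B : List (ℤ × ℤ × ℤ)) (F : Finset (List V))
    (hB : BV 0 B H) (hF : ∀ l ∈ F, MV (0, 0) H B l) :
    ∑ l ∈ F, (mu0⁻¹) ^ (l.length - 1) ≤ (Real.sqrt 2)⁻¹ ^ B.length := by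
  classical
  obtain ⟨n0, hn0⟩ : ∃ n0 : ℕ, ∀ l ∈ F, l.length ≤ n0 := ⟨F.sup List.length, fun l hl =>
    Finset.le_sup (f := List.length) hl⟩
  obtain ⟨R0, hR0⟩ := exists_rows B
  obtain ⟨R, hR⟩ : ∃ R : ℤ, R = max R0 n0 := ⟨_, rfl⟩
  have hRn : (n0 : ℤ) ≤ R := by omega
  have hR1 : ∀ p ∈ B, -R ≤ p.2.1 ∧ p.2.1 + p.2.2 - 1 ≤ R := by
    intro p hp
    have := hR0 p hp
    omega
  have hfin : {v | fd R B 0 (fun _ => False) H v}.Finite :=
    fin_fd B 0 (fun _ => False) (by simp)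
  obtain ⟨S, hS⟩ : ∃ S : Finset V, ∀ v, fd R B 0 (fun _ => False) H v → v ∈ S :=
    ⟨hfin.toFinset, fun v hv => by rw [Set.Finite.mem_toFinset]; exact hv⟩
  have key := mass_le S (n := n0 + S.card) (Nat.le_add_left _ _) B 0 (fun _ => False) 1 hB hR1
    (fun T hT hTe => ⟨fun y' g' hg' h1 h2 =>
      (start (n := n0 + S.card) S (Nat.le_add_left _ _) (by omega) hg' T hT hTe).1 y' h1 h2,
      (start (n := n0 + S.card) S (Nat.le_add_left _ _) (by omega) le_rfl T hT hTe).2⟩) hS
  have hsub : F.image List.reverse ⊆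
      lf (fd R B 0 (fun _ => False) H) (n0 + S.card) (fun z => z.1 - z.2 = H + 1) := by
    intro l hl
    obtain ⟨m, hm, rfl⟩ := Finset.mem_image.1 hl
    have hmid := hF m hm
    have hlen := hn0 m hm
    have hnear := Val_near (rev_val hmid (Om := fun _ => True) (fun _ _ _ _ => trivial))
    have hhead : ∀ z ∈ m.reverse.head?, z.1 - z.2 = H + 1 := by
      intro z hz
      rw [List.head?_reverse] at hz
      exact hmid.2.2.2.2.2.2.1 z hz
    have hne : m.reverse ≠ [] := by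
      intro h
      obtain ⟨M, hM⟩ := rev_form hmid
      rw [hM] at h
      simp at h
    have hz : (m.reverse.headD (0, 0)).1 - (m.reverse.headD (0, 0)).2 = H + 1 := by
      apply hhead
      match m.reverse, hne with
      | z :: t, _ => simp
    rw [mem_lf, mem_LS]
    refine ⟨⟨rev_val hmid ?_, by rw [List.length_reverse]; omega, ?_⟩, hz⟩
    · intro v hv h1 h2
      have hvn := (hnear v (List.mem_reverse.2 hv)).2
      rw [List.length_reverse, abs_le] at hvn
      have hlen' : (m.length : ℤ) ≤ n0 := by exact_mod_cast hlen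
      refine fd_mem B 0 _ v hB (fun h => by omega) h2 (by omega) (by omega) ?_
      intro p hp hp1 hp2
      exact hmid.2.2.2.2.2.2.2 p hp v hv hp1 hp2
    · intro h
      have := fd_le B 0 (fun _ => False) hB (fun _ h => h.elim) _ h
      omega
  have hmu : 1 ≤ mu0 := by
    unfold mu0
    rw [Real.one_le_sqrt]
    have := Real.sqrt_nonneg 2
    linarith
  have hmu0 : 0 ≤ mu0⁻¹ := by positivity
  have hmu1 : mu0⁻¹ ≤ 1 := inv_le_one_of_one_le₀ hmu
  have hs : Real.sin (2 * (Real.pi / 8)) = (Real.sqrt 2)⁻¹ := by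
    have e : 2 * (Real.pi / 8) = Real.pi / 4 := by ring
    rw [e, Real.sin_pi_div_four]
    have h2 : Real.sqrt 2 ≠ 0 := by positivity
    field_simp
    norm_num
  calc ∑ l ∈ F, (mu0⁻¹) ^ (l.length - 1) ≤ ∑ l ∈ F, wt l.reverse := by
        refine Finset.sum_le_sum fun l _ => ?_
        unfold wt
        rw [List.length_reverse]
        exact pow_le_pow_of_le_one hmu0 hmu1 (by omega)
    _ = ms (F.image List.reverse) := by
        unfold ms
        rw [Finset.sum_image]
        intro a _ b _ h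
        exact List.reverse_injective h
    _ ≤ mf (fd R B 0 (fun _ => False) H) (n0 + S.card) (fun z => z.1 - z.2 = H + 1) :=
        ms_mono hsub
    _ ≤ 1 * Real.sin (2 * (Real.pi / 8)) ^ B.length := key
    _ = _ := by rw [one_mul, hs]

/-- **critical mass of the paths which respect the blocks** -/
theorem winV (u : V) (H : ℤ) (B : List (ℤ × ℤ × ℤ)) (F : Finset (List V))
    (hu : Even (u.1 + u.2)) (hB : BV (lev u) B H) (hF : ∀ l ∈ F, MV u H B l) :
    ∑ l ∈ F, (mu0⁻¹) ^ (l.length - 1) ≤ (Real.sqrt 2)⁻¹ ^ B.length := by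
  classical
  have hev : Even (lev u) := by
    unfold lev
    have e : u.1 - u.2 = (u.1 + u.2) - (u.2 + u.2) := by ring
    rw [e]
    exact hu.sub (Even.add_self _)
  have hB' := bv_shift u.2 hev B (lev u) H hB
  rw [sub_self] at hB'
  have hinj : Function.Injective (fun l : List V => l.map fun v => v - u) :=
    List.map_injective_iff.2 sub_left_injective
  have := win0 (H - lev u) _ (F.image fun l => l.map fun v => v - u) hB' (by
    intro l hl
    obtain ⟨m, hm, rfl⟩ := Finset.mem_image.1 hl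
    exact mv_shift hu (hF m hm))
  rw [Finset.sum_image (fun a _ b _ h => hinj h)] at this
  simpa using this

end Run7.h287.ST
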